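import Mathlib

/-!
# From invariant functionals to the failure of the finite basis property
-/

set_option autoImplicit false

namespace Pool.MP_f6e9c2_al_work

/-- `⁅⁅u,⁅u,⁅u,v⁆⁆⁆,⁅u,w⁆⁆ - ⁅⁅u,v⁆,⁅u,⁅u,⁅u,w⁆⁆⁆⁆`, an identity of `sl₂`. -/
def gg {L : Type*} [LieRing L] (u v w : L) : L :=
  ⁅⁅u, ⁅u, ⁅u, v⁆⁆⁆, ⁅u, w⁆⁆ - ⁅⁅u, v⁆, ⁅u, ⁅u, ⁅u, w⁆⁆⁆⁆

/-- The identity in nine variables. -/
def hh {L : Type*} [LieRing L] (a : ℕ → L) : L :=
  ⁅gg (a 0) (a 1) (a 2), ⁅gg (a 3) (a 4) (a 5), gg (a 6) (a 7) (a 8)⁆⁆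

section maps

variable {K L M : Type*} [CommRing K] [LieRing L] [LieAlgebra K L] [LieRing M] [LieAlgebra K M]

theorem map_gg (f : L →ₗ⁅K⁆ M) (u v w : L) : f (gg u v w) = gg (f u) (f v) (f w) := by
  simp [gg]

theorem map_hh (f : L →ₗ⁅K⁆ M) (a : ℕ → L) : f (hh a) = hh (fun i => f (a i)) := by
  simp [hh, map_gg]

end maps

/-- The verbal ideal of the two-generated free Lie algebra. -/
noncomputable def IV (K : Type) [CommRing K] : LieIdeal K (FreeLieAlgebra K (Fin 2)) :=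
  LieSubmodule.lieSpan K (FreeLieAlgebra K (Fin 2)) (Set.range hh)

section

variable {K : Type} [CommRing K]

theorem hh_mem_IV (a : ℕ → FreeLieAlgebra K (Fin 2)) : hh a ∈ IV K :=
  LieSubmodule.subset_lieSpan ⟨a, rfl⟩

/-- A Lie homomorphism into a Lie algebra satisfying the identity kills `IV`. -/
theorem map_IV_eq_zero {M : Type*} [LieRing M] [LieAlgebra K M]
    (f : FreeLieAlgebra K (Fin 2) →ₗ⁅K⁆ M) (hM : ∀ a : ℕ → M, hh a = 0)
    (x : FreeLieAlgebra K (Fin 2)) (hx : x ∈ IV K) : f x = 0 := by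
  unfold IV at hx
  induction hx using LieSubmodule.lieSpan_induction with
  | mem x hx =>
    obtain ⟨a, rfl⟩ := hx
    rw [map_hh, hM]
  | zero => simp
  | add x y _ _ hx hy => rw [map_add, hx, hy, add_zero]
  | smul a x _ hx => rw [map_smul, hx, smul_zero]
  | lie w x _ hx => rw [LieHom.map_lie, hx, lie_zero]

theorem map_IV_mem (f : FreeLieAlgebra K (Fin 2) →ₗ⁅K⁆ FreeLieAlgebra K (Fin 2))
    (x : FreeLieAlgebra K (Fin 2)) (hx : x ∈ IV K) : f x ∈ IV K := by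
  unfold IV at hx
  induction hx using LieSubmodule.lieSpan_induction with
  | mem x hx =>
    obtain ⟨a, rfl⟩ := hx
    rw [map_hh]
    exact hh_mem_IV _
  | zero => simp
  | add x y _ _ hx hy => rw [map_add]; exact (IV K).add_mem hx hy
  | smul a x _ hx => rw [map_smul]; exact (IV K).smul_mem _ hx
  | lie w x _ hx => rw [LieHom.map_lie]; exact lie_mem_right K _ (IV K) _ _ hx

/-- The quotient map of a Lie algebra by an ideal, as a Lie homomorphism. -/
def mkHom {L : Type*} [LieRing L] [LieAlgebra K L] (I : LieIdeal K L) : L →ₗ⁅K⁆ L ⧸ I :=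
  { toFun := LieSubmodule.Quotient.mk
    map_add' := fun _ _ => rfl
    map_smul' := fun _ _ => rfl
    map_lie' := fun {_ _} => rfl }

theorem mkHom_eq_zero {L : Type*} [LieRing L] [LieAlgebra K L] (I : LieIdeal K L) (x : L) :
    mkHom I x = 0 ↔ x ∈ I :=
  LieSubmodule.Quotient.mk_eq_zero' 

theorem mkHom_surjective {L : Type*} [LieRing L] [LieAlgebra K L] (I : LieIdeal K L) :
    Function.Surjective (mkHom I) := Quot.mk_surjective

/-- The embedding of two-variable identities. -/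
noncomputable def iota (K : Type) [CommRing K] :
    FreeLieAlgebra K (Fin 2) →ₗ⁅K⁆ FreeLieAlgebra K ℕ :=
  FreeLieAlgebra.lift K (fun i : Fin 2 => FreeLieAlgebra.of K (i : ℕ))

theorem lift_iota {M : Type*} [LieRing M] [LieAlgebra K M] (ψ : ℕ → M)
    (x : FreeLieAlgebra K (Fin 2)) :
    FreeLieAlgebra.lift K ψ (iota K x) = FreeLieAlgebra.lift K (fun i : Fin 2 => ψ i) x := by
  have : (FreeLieAlgebra.lift K ψ).comp (iota K) =
      FreeLieAlgebra.lift K (fun i : Fin 2 => ψ i) := by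
    apply FreeLieAlgebra.hom_ext
    intro i
    simp [iota]
  exact congrArg (fun f => f x) this

theorem lift_hh {M : Type*} [LieRing M] [LieAlgebra K M] (ψ : ℕ → M) :
    FreeLieAlgebra.lift K ψ (hh (FreeLieAlgebra.of K)) = hh ψ := by
  rw [map_hh]
  simp

theorem comp_lift {L M : Type*} [LieRing L] [LieAlgebra K L] [LieRing M] [LieAlgebra K M]
    {X : Type*} (f : L →ₗ⁅K⁆ M) (φ : X → L) (x : FreeLieAlgebra K X) :
    f (FreeLieAlgebra.lift K φ x) = FreeLieAlgebra.lift K (fun i => f (φ i)) x := by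
  have : f.comp (FreeLieAlgebra.lift K φ) = FreeLieAlgebra.lift K (fun i => f (φ i)) := by
    apply FreeLieAlgebra.hom_ext
    intro i
    simp
  exact congrArg (fun f => f x) this

end

/-- The abstract criterion. -/
theorem assembly (K : Type) [Field K] (Λ : ℕ → FreeLieAlgebra K (Fin 2) →ₗ[K] K)
    (hA : ∀ f ∈ IV K, ∃ s0, ∀ s ≥ s0,
      ∀ φ : FreeLieAlgebra K (Fin 2) →ₗ⁅K⁆ FreeLieAlgebra K (Fin 2), Λ s (φ f) = 0)
    (hB : ∀ s0, ∃ s ≥ s0, ∃ τ ∈ IV K, Λ s τ ≠ 0)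
    (hC : ∀ s, ∀ τ ∈ IV K, ∀ w : FreeLieAlgebra K (Fin 2), Λ s ⁅w, τ⁆ = 0) :
    ¬ ∃ T : Finset (FreeLieAlgebra K ℕ),
        ∀ (L : Type) [LieRing L] [LieAlgebra K L],
          (∀ g ∈ T, ∀ φ : ℕ → L, FreeLieAlgebra.lift K φ g = 0) ↔
          (∀ g ∈ Set.range
              (⇑(FreeLieAlgebra.lift K (fun i : Fin 2 => FreeLieAlgebra.of K (i : ℕ)))),
            (∀ (M : Type) [LieRing M] [LieAlgebra K M],
              (∀ h ∈ ({hh (FreeLieAlgebra.of K)} : Finset (FreeLieAlgebra K ℕ)),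
                ∀ ψ : ℕ → M, FreeLieAlgebra.lift K ψ h = 0) →
                ∀ ψ : ℕ → M, FreeLieAlgebra.lift K ψ g = 0) →
            ∀ φ : ℕ → L, FreeLieAlgebra.lift K φ g = 0) := by
  rintro ⟨T, hT⟩
  -- the quotients `E s`
  let J : ℕ → LieIdeal K (FreeLieAlgebra K (Fin 2)) := fun s =>
    { carrier := {τ | τ ∈ IV K ∧ Λ s τ = 0}
      add_mem' := fun {a b} ha hb => ⟨(IV K).add_mem ha.1 hb.1, by rw [map_add, ha.2, hb.2, add_zero]⟩
      zero_mem' := ⟨(IV K).zero_mem, map_zero _⟩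
      smul_mem' := fun c a ha => ⟨(IV K).smul_mem c ha.1, by rw [map_smul, ha.2, smul_zero]⟩
      lie_mem := fun {x m} hm => ⟨lie_mem_right K _ (IV K) x m hm.1, hC s m hm.1 x⟩ }
  have hJ : ∀ s τ, τ ∈ J s ↔ τ ∈ IV K ∧ Λ s τ = 0 := fun _ _ => Iff.rfl
  -- two-variable identities of the variety
  have hid1 : ∀ f ∈ IV K, ∀ (M : Type) [LieRing M] [LieAlgebra K M],
      (∀ h ∈ ({hh (FreeLieAlgebra.of K)} : Finset (FreeLieAlgebra K ℕ)),
        ∀ ψ : ℕ → M, FreeLieAlgebra.lift K ψ h = 0) →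
        ∀ ψ : ℕ → M, FreeLieAlgebra.lift K ψ (iota K f) = 0 := by
    intro f hf M _ _ hM ψ
    rw [lift_iota]
    refine map_IV_eq_zero _ (fun a => ?_) f hf
    have := hM _ (Finset.mem_singleton_self _) a
    rwa [lift_hh] at this
  have hid2 : ∀ f : FreeLieAlgebra K (Fin 2), (∀ (M : Type) [LieRing M] [LieAlgebra K M],
      (∀ h ∈ ({hh (FreeLieAlgebra.of K)} : Finset (FreeLieAlgebra K ℕ)),
        ∀ ψ : ℕ → M, FreeLieAlgebra.lift K ψ h = 0) →
        ∀ ψ : ℕ → M, FreeLieAlgebra.lift K ψ (iota K f) = 0) → f ∈ IV K := by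
    intro f hf
    have h1 := hf (FreeLieAlgebra K (Fin 2) ⧸ IV K) (by
      intro h hh' ψ
      rw [Finset.mem_singleton] at hh'
      subst hh'
      rw [lift_hh]
      choose b hb using fun i => mkHom_surjective (IV K) (ψ i)
      have : ψ = fun i => mkHom (IV K) (b i) := funext fun i => (hb i).symm
      rw [this, ← map_hh, mkHom_eq_zero]
      exact hh_mem_IV _) (fun i => if i = 0 then mkHom (IV K) (FreeLieAlgebra.of K 0) else
        mkHom (IV K) (FreeLieAlgebra.of K 1))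
    rw [lift_iota] at h1
    rw [← mkHom_eq_zero (IV K)]
    rw [← h1]
    have : mkHom (IV K) = FreeLieAlgebra.lift K (fun i : Fin 2 =>
        if (i : ℕ) = 0 then mkHom (IV K) (FreeLieAlgebra.of K 0) else
        mkHom (IV K) (FreeLieAlgebra.of K 1)) := by
      apply FreeLieAlgebra.hom_ext
      intro i
      fin_cases i <;> simp
    exact congrArg (fun g => g f) this
  -- the ideal of identities satisfied by all but finitely many of the `E s`
  let N : LieIdeal K (FreeLieAlgebra K ℕ) :=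
    { carrier := {g | ∃ s0, ∀ s ≥ s0, ∀ ψ : ℕ → FreeLieAlgebra K (Fin 2) ⧸ J s,
        FreeLieAlgebra.lift K ψ g = 0}
      add_mem' := by
        rintro a b ⟨s1, h1⟩ ⟨s2, h2⟩
        refine ⟨max s1 s2, fun s hs ψ => ?_⟩
        rw [map_add, h1 s (le_trans (le_max_left _ _) hs), h2 s (le_trans (le_max_right _ _) hs),
          add_zero]
      zero_mem' := ⟨0, fun s _ ψ => map_zero _⟩
      smul_mem' := by
        rintro c a ⟨s1, h1⟩
        exact ⟨s1, fun s hs ψ => by rw [map_smul, h1 s hs, smul_zero]⟩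
      lie_mem := by
        rintro x m ⟨s1, h1⟩
        exact ⟨s1, fun s hs ψ => by rw [LieHom.map_lie, h1 s hs, lie_zero]⟩ }
  have hN : ∀ g, g ∈ N ↔ ∃ s0, ∀ s ≥ s0, ∀ ψ : ℕ → FreeLieAlgebra K (Fin 2) ⧸ J s,
        FreeLieAlgebra.lift K ψ g = 0 := fun _ => Iff.rfl
  have hNsub : ∀ g ∈ N, ∀ φ : ℕ → FreeLieAlgebra K ℕ, FreeLieAlgebra.lift K φ g ∈ N := by
    intro g hg φ
    obtain ⟨s0, h0⟩ := (hN g).1 hg
    refine (hN _).2 ⟨s0, fun s hs ψ => ?_⟩
    rw [comp_lift]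
    exact h0 s hs _
  have hIVN : ∀ f ∈ IV K, iota K f ∈ N := by
    intro f hf
    obtain ⟨s0, h0⟩ := hA f hf
    refine (hN _).2 ⟨s0, fun s hs ψ => ?_⟩
    rw [lift_iota]
    choose b hb using fun i => mkHom_surjective (J s) (ψ i)
    have : FreeLieAlgebra.lift K (fun i : Fin 2 => ψ i) f =
        mkHom (J s) (FreeLieAlgebra.lift K (fun i : Fin 2 => b i) f) := by
      rw [comp_lift]
      simp only [hb]
    rw [this, mkHom_eq_zero, hJ]
    exact ⟨map_IV_mem _ f hf, h0 s hs _⟩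
  -- the relatively free algebra modulo `N` lies in the variety, hence satisfies `T`
  have hTN : ∀ g ∈ T, g ∈ N := by
    intro g hg
    have h1 := (hT (FreeLieAlgebra K ℕ ⧸ N)).2 (by
      rintro g ⟨f, rfl⟩ hf φ
      have hfIV : f ∈ IV K := hid2 f hf
      choose b hb using fun i => mkHom_surjective N (φ i)
      have : FreeLieAlgebra.lift K φ (iota K f) =
          mkHom N (FreeLieAlgebra.lift K b (iota K f)) := by
        rw [comp_lift]
        simp only [hb]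
      change FreeLieAlgebra.lift K φ (iota K f) = 0
      rw [this, mkHom_eq_zero]
      exact hNsub _ (hIVN f hfIV) b) g hg (fun i => mkHom N (FreeLieAlgebra.of K i))
    rw [← comp_lift, mkHom_eq_zero] at h1
    have h2 : FreeLieAlgebra.lift K (FreeLieAlgebra.of K) g = g := by
      have : FreeLieAlgebra.lift K (FreeLieAlgebra.of K) =
          (LieHom.id : FreeLieAlgebra K ℕ →ₗ⁅K⁆ FreeLieAlgebra K ℕ) := by
        apply FreeLieAlgebra.hom_ext
        intro i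
        simp
      rw [this]
      rfl
    rwa [h2] at h1
  -- uniform bound
  have hunif : ∃ s0, ∀ g ∈ T, ∀ s ≥ s0, ∀ ψ : ℕ → FreeLieAlgebra K (Fin 2) ⧸ J s,
      FreeLieAlgebra.lift K ψ g = 0 := by
    have h1 : ∀ g : {g // g ∈ T}, ∃ s0, ∀ s ≥ s0, ∀ ψ : ℕ → FreeLieAlgebra K (Fin 2) ⧸ J s,
      FreeLieAlgebra.lift K ψ g.1 = 0 := fun g => (hN g.1).1 (hTN g.1 g.2)
    choose c hc using h1
    refine ⟨T.attach.sup c, fun g hg s hs ψ => ?_⟩
    exact hc ⟨g, hg⟩ s (le_trans (Finset.le_sup (f := c) (Finset.mem_attach T ⟨g, hg⟩)) hs) ψ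
  obtain ⟨s0, h0⟩ := hunif
  obtain ⟨s, hs, τ, hτ, hne⟩ := hB s0
  have h1 := (hT (FreeLieAlgebra K (Fin 2) ⧸ J s)).1 (fun g hg φ => h0 g hg s hs φ)
    (iota K τ) ⟨τ, rfl⟩ (hid1 τ hτ) (fun i => if i = 0 then mkHom (J s) (FreeLieAlgebra.of K 0) else
        mkHom (J s) (FreeLieAlgebra.of K 1))
  rw [lift_iota] at h1
  have h2 : mkHom (J s) = FreeLieAlgebra.lift K (fun i : Fin 2 =>
      if (i : ℕ) = 0 then mkHom (J s) (FreeLieAlgebra.of K 0) else
      mkHom (J s) (FreeLieAlgebra.of K 1)) := by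
    apply FreeLieAlgebra.hom_ext
    intro i
    fin_cases i <;> simp
  rw [← h2, mkHom_eq_zero, hJ] at h1
  exact hne h1.2

end Pool.MP_f6e9c2_al_work
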