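import Mathlib

/-!
# Top forms in characteristic three

Polynomial forms in three variables, their Jacobians, and the coefficient functionals
`F s` (coefficient of `z₀^(P-1) z₁^(2P-1) z₂^(P-1)`, `P = 3^s`).
-/

set_option autoImplicit false

open MvPolynomial

namespace Pool.MP_f6e9c2_al_work

section general

variable {R : Type*} [CommRing R]

/-- Jacobian determinant of three polynomials in three variables. -/
noncomputable def jac (f g h : MvPolynomial (Fin 3) R) : MvPolynomial (Fin 3) R :=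
  pderiv 0 f * (pderiv 1 g * pderiv 2 h - pderiv 2 g * pderiv 1 h)
  - pderiv 1 f * (pderiv 0 g * pderiv 2 h - pderiv 2 g * pderiv 0 h)
  + pderiv 2 f * (pderiv 0 g * pderiv 1 h - pderiv 1 g * pderiv 0 h)

theorem pderiv_comm' (i j : Fin 3) (f : MvPolynomial (Fin 3) R) :
    pderiv i (pderiv j f) = pderiv j (pderiv i f) := by
  have h : ⁅(pderiv i : Derivation R (MvPolynomial (Fin 3) R) (MvPolynomial (Fin 3) R)),
      (pderiv j : Derivation R (MvPolynomial (Fin 3) R) (MvPolynomial (Fin 3) R))⁆ = 0 := by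
    apply MvPolynomial.derivation_ext
    intro k
    rw [Derivation.commutator_apply, pderiv_X, pderiv_X]
    simp only [Pi.single_apply]
    split_ifs <;> simp
  have h2 := congrArg (fun D => D f) h
  simp only [Derivation.commutator_apply, Derivation.coe_zero, Pi.zero_apply] at h2
  exact sub_eq_zero.1 h2

/-- The Jacobian is a divergence. -/
theorem jac_eq_div (f g h : MvPolynomial (Fin 3) R) :
    jac f g h =
      pderiv 0 (f * (pderiv 1 g * pderiv 2 h - pderiv 2 g * pderiv 1 h))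
      + pderiv 1 (f * (pderiv 2 g * pderiv 0 h - pderiv 0 g * pderiv 2 h))
      + pderiv 2 (f * (pderiv 0 g * pderiv 1 h - pderiv 1 g * pderiv 0 h)) := by
  simp only [jac, pderiv_mul, map_sub]
  rw [pderiv_comm' 1 0 g, pderiv_comm' 2 0 g, pderiv_comm' 2 1 g,
    pderiv_comm' 1 0 h, pderiv_comm' 2 0 h, pderiv_comm' 2 1 h]
  ring

theorem jac_map {S : Type*} [CommRing S] (φ : R →+* S) (f g h : MvPolynomial (Fin 3) R) :
    jac (map φ f) (map φ g) (map φ h) = map φ (jac f g h) := by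
  simp only [jac, pderiv_map, map_add, map_sub, map_mul]

theorem jac_pow (a b c : MvPolynomial (Fin 3) R) (i j k : ℕ) :
    jac (a ^ (i + 1) * b ^ j * c ^ k) b c = ((i + 1 : ℕ) : MvPolynomial (Fin 3) R) *
      (a ^ i * b ^ j * c ^ k * jac a b c) := by
  simp only [jac, pderiv_mul, pderiv_pow, Nat.add_sub_cancel]
  ring

/-- Chain rule. -/
theorem pderiv_aeval' (f : Fin 3 → MvPolynomial (Fin 3) R) (l : Fin 3)
    (G : MvPolynomial (Fin 3) R) :
    pderiv l (aeval f G) = ∑ i, aeval f (pderiv i G) * pderiv l (f i) := by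
  induction G using MvPolynomial.induction_on with
  | C a => simp
  | add p q hp hq => simp only [map_add, hp, hq, add_mul, Finset.sum_add_distrib]
  | mul_X p n hp =>
    simp only [map_mul, aeval_X, pderiv_mul, hp, map_add, Finset.sum_mul, add_mul,
      Finset.sum_add_distrib]
    congr 1
    · apply Finset.sum_congr rfl
      intro i _
      ring
    · simp only [pderiv_X, Pi.single_apply]
      rw [Finset.sum_eq_single n]
      · simp
      · intro b _ hb
        simp [hb.symm]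
      · simp

theorem jac_aeval (f : Fin 3 → MvPolynomial (Fin 3) R) (G1 G2 G3 : MvPolynomial (Fin 3) R) :
    jac (aeval f G1) (aeval f G2) (aeval f G3) =
      aeval f (jac G1 G2 G3) * jac (f 0) (f 1) (f 2) := by
  simp only [jac, pderiv_aeval', Fin.sum_univ_three, map_add, map_sub, map_mul]
  ring

end general

/-- The exponent `(P-1, 2P-1, P-1)`. -/
noncomputable def expo (s : ℕ) : Fin 3 →₀ ℕ :=
  Finsupp.equivFunOnFinite.symm ![3 ^ s - 1, 2 * 3 ^ s - 1, 3 ^ s - 1]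

theorem expo_dvd (s : ℕ) (l : Fin 3) : 3 ^ s ∣ expo s l + 1 := by
  have h : 1 ≤ 3 ^ s := Nat.one_le_pow _ _ (by norm_num)
  fin_cases l
  · simp only [expo, Fin.zero_eta, Finsupp.equivFunOnFinite_symm_apply_apply, Matrix.cons_val_zero]
    rw [Nat.sub_add_cancel h]
  · simp only [expo, Fin.mk_one, Finsupp.equivFunOnFinite_symm_apply_apply, Matrix.cons_val_one, Matrix.cons_val_zero]
    rw [Nat.sub_add_cancel (by omega)]
    exact dvd_mul_left _ _
  · simp only [expo, Fin.reduceFinMk, Finsupp.equivFunOnFinite_symm_apply_apply, Matrix.cons_val]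
    rw [Nat.sub_add_cancel h]

theorem coeff_pderiv_dvd (s : ℕ) (l : Fin 3) (f : MvPolynomial (Fin 3) ℤ) :
    (3 : ℤ) ^ s ∣ coeff (expo s) (pderiv l f) := by
  rw [coeff_pderiv]
  apply Dvd.dvd.mul_left
  have := expo_dvd s l
  have h2 : ((3 ^ s : ℕ) : ℤ) ∣ ((expo s l + 1 : ℕ) : ℤ) := Int.natCast_dvd_natCast.2 this
  push_cast at h2
  exact h2

theorem coeff_jac_dvd (s : ℕ) (f g h : MvPolynomial (Fin 3) ℤ) :
    (3 : ℤ) ^ s ∣ coeff (expo s) (jac f g h) := by
  rw [jac_eq_div, coeff_add, coeff_add]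
  exact dvd_add (dvd_add (coeff_pderiv_dvd _ _ _) (coeff_pderiv_dvd _ _ _))
    (coeff_pderiv_dvd _ _ _)

/-- The polynomial ring in three variables over the field with three elements. -/
abbrev A3 := MvPolynomial (Fin 3) (ZMod 3)

/-- The coefficient functional. -/
noncomputable def FF (s : ℕ) : A3 →ₗ[ZMod 3] ZMod 3 := lcoeff (ZMod 3) (expo s)

theorem FF_apply (s : ℕ) (f : A3) : FF s f = coeff (expo s) f := rfl

theorem FF_pderiv (s : ℕ) (hs : 1 ≤ s) (l : Fin 3) (f : A3) : FF s (pderiv l f) = 0 := by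
  rw [FF_apply, coeff_pderiv]
  have h1 : 3 ∣ expo s l + 1 := dvd_trans (dvd_pow_self 3 (by omega)) (expo_dvd s l)
  have h2 : ((expo s l + 1 : ℕ) : ZMod 3) = 0 := (ZMod.natCast_eq_zero_iff _ _).2 h1
  push_cast at h2
  rw [h2, mul_zero]

theorem FF_jac (s : ℕ) (hs : 1 ≤ s) (f g h : A3) : FF s (jac f g h) = 0 := by
  rw [jac_eq_div, map_add, map_add, FF_pderiv s hs, FF_pderiv s hs, FF_pderiv s hs]
  simp

/-- Vanishing on monomials. -/
theorem FF_monomial (s : ℕ) (a b c : A3) (i j k : ℕ) (hi : i + 1 < 3 ^ s) :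
    FF s (a ^ i * b ^ j * c ^ k * jac a b c) = 0 := by
  have hsurj : Function.Surjective (map (Int.castRingHom (ZMod 3)) :
      MvPolynomial (Fin 3) ℤ → A3) := map_surjective _ (ZMod.ringHom_surjective _)
  obtain ⟨a', rfl⟩ := hsurj a
  obtain ⟨b', rfl⟩ := hsurj b
  obtain ⟨c', rfl⟩ := hsurj c
  rw [jac_map, ← map_pow, ← map_pow, ← map_pow, ← map_mul, ← map_mul, ← map_mul, FF_apply,
    coeff_map]
  have h1 : (3 : ℤ) ^ s ∣ coeff (expo s) (jac (a' ^ (i + 1) * b' ^ j * c' ^ k) b' c') :=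
    coeff_jac_dvd _ _ _ _
  rw [jac_pow] at h1
  have h2 : coeff (expo s) (((i + 1 : ℕ) : MvPolynomial (Fin 3) ℤ) *
      (a' ^ i * b' ^ j * c' ^ k * jac a' b' c')) =
      ((i + 1 : ℕ) : ℤ) * coeff (expo s) (a' ^ i * b' ^ j * c' ^ k * jac a' b' c') := by
    rw [← C_eq_coe_nat, coeff_C_mul]
  rw [h2] at h1
  rw [eq_intCast, ZMod.intCast_zmod_eq_zero_iff_dvd]
  by_contra hcon
  have hp : Prime (3 : ℤ) := Int.prime_three
  have hcop : IsCoprime ((3 : ℤ) ^ s)
      (coeff (expo s) (a' ^ i * b' ^ j * c' ^ k * jac a' b' c')) := by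
    apply IsCoprime.pow_left
    exact (Prime.coprime_iff_not_dvd hp).2 (by simpa using hcon)
  have h3 := hcop.dvd_of_dvd_mul_right h1
  have h4 := Int.le_of_dvd (by positivity) h3
  have h5 : 3 ^ s ≤ i + 1 := by exact_mod_cast h4
  omega

theorem FF_poly (G : A3) : ∃ s0, ∀ s ≥ s0, ∀ f : Fin 3 → A3,
    FF s (aeval f G * jac (f 0) (f 1) (f 2)) = 0 := by
  induction G using MvPolynomial.induction_on' with
  | monomial u r =>
    refine ⟨u 0 + 2, fun s hs f => ?_⟩
    have h1 : aeval f (monomial u r) = C r * (f 0 ^ u 0 * f 1 ^ u 1 * f 2 ^ u 2) := by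
      rw [aeval_monomial, Finsupp.prod_fintype _ _ (by simp), Fin.prod_univ_three]
      rfl
    rw [h1, mul_assoc, ← smul_eq_C_mul, map_smul, FF_monomial, smul_zero]
    calc u 0 + 1 < s := by omega
      _ < 3 ^ s := Nat.lt_pow_self (by norm_num)
  | add p q hp hq =>
    obtain ⟨s1, h1⟩ := hp
    obtain ⟨s2, h2⟩ := hq
    refine ⟨max s1 s2, fun s hs f => ?_⟩
    rw [map_add, add_mul, map_add, h1 s (le_trans (le_max_left _ _) hs),
      h2 s (le_trans (le_max_right _ _) hs), add_zero]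

/-- The vanishing lemma. -/
theorem FF_vanish (G1 G2 G3 G4 : A3) : ∃ s0, ∀ s ≥ s0, ∀ f : Fin 3 → A3,
    FF s (aeval f G1 * jac (aeval f G2) (aeval f G3) (aeval f G4)) = 0 := by
  obtain ⟨s0, h⟩ := FF_poly (G1 * jac G2 G3 G4)
  refine ⟨s0, fun s hs f => ?_⟩
  rw [jac_aeval, ← mul_assoc, ← map_mul]
  exact h s hs f

/-! ### The bilinear form on exact two-forms -/

/-- `∇θ × ∇η` -/
noncomputable def J2 (θ η : A3) : Fin 3 → A3 :=
  ![pderiv 1 θ * pderiv 2 η - pderiv 2 θ * pderiv 1 η,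
    pderiv 2 θ * pderiv 0 η - pderiv 0 θ * pderiv 2 η,
    pderiv 0 θ * pderiv 1 η - pderiv 1 θ * pderiv 0 η]

noncomputable def pdl (l : Fin 3) : A3 →ₗ[ZMod 3] A3 := (pderiv l : Derivation (ZMod 3) A3 A3)

noncomputable def curl : (Fin 3 → A3) →ₗ[ZMod 3] (Fin 3 → A3) where
  toFun α := ![pderiv 1 (α 2) - pderiv 2 (α 1), pderiv 2 (α 0) - pderiv 0 (α 2),
    pderiv 0 (α 1) - pderiv 1 (α 0)]
  map_add' α β := by
    ext k
    fin_cases k <;> simp <;> ring
  map_smul' c α := by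
    ext k
    fin_cases k <;> simp [smul_eq_C_mul] <;> ring

noncomputable def dot3 (α β : Fin 3 → A3) : A3 := α 0 * β 0 + α 1 * β 1 + α 2 * β 2

theorem FF_green (s : ℕ) (hs : 1 ≤ s) (α β : Fin 3 → A3) :
    FF s (dot3 (curl α) β) = FF s (dot3 α (curl β)) := by
  rw [← sub_eq_zero, ← map_sub]
  have h : dot3 (curl α) β - dot3 α (curl β) =
      pderiv 0 (α 1 * β 2 - α 2 * β 1) + pderiv 1 (α 2 * β 0 - α 0 * β 2) +
      pderiv 2 (α 0 * β 1 - α 1 * β 0) := by
    simp [dot3, curl]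
    ring
  rw [h, map_add, map_add, FF_pderiv s hs, FF_pderiv s hs, FF_pderiv s hs]
  simp

theorem exists_h : ∃ h : (Fin 3 → A3) →ₗ[ZMod 3] (Fin 3 → A3), ∀ α, curl (h (curl α)) = curl α := by
  obtain ⟨g, hg⟩ := LinearMap.exists_rightInverse_of_surjective curl.rangeRestrict
    (LinearMap.range_rangeRestrict curl)
  obtain ⟨h, hh⟩ := LinearMap.exists_extend g
  refine ⟨h, fun α => ?_⟩
  have h1 : h (curl α) = g (curl.rangeRestrict α) := by
    rw [← hh]
    rfl
  rw [h1]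
  have h2 := congrArg (fun f => (f (curl.rangeRestrict α)).1) hg
  exact h2

theorem curl_smul_grad (θ η : A3) : curl (fun l => θ * pderiv l η) = J2 θ η := by
  ext1 k
  fin_cases k
  · simp only [curl, J2, LinearMap.coe_mk, AddHom.coe_mk, pderiv_mul, pderiv_comm' 2 1 η]
    simp
  · simp only [curl, J2, LinearMap.coe_mk, AddHom.coe_mk, pderiv_mul, pderiv_comm' 2 0 η]
    simp
  · simp only [curl, J2, LinearMap.coe_mk, AddHom.coe_mk, pderiv_mul, pderiv_comm' 1 0 η]
    simp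

theorem exists_form : ∃ b : ℕ → (Fin 3 → A3) →ₗ[ZMod 3] (Fin 3 → A3) →ₗ[ZMod 3] ZMod 3,
    ∀ s ≥ 1, ∀ θ₁ η₁ θ₂ η₂ : A3, b s (J2 θ₁ η₁) (J2 θ₂ η₂) = FF s (θ₁ * jac η₁ θ₂ η₂) := by
  obtain ⟨h, hh⟩ := exists_h
  let dt : (Fin 3 → A3) →ₗ[ZMod 3] (Fin 3 → A3) →ₗ[ZMod 3] A3 :=
    LinearMap.mk₂ (ZMod 3) dot3 (fun a b c => by simp [dot3]; ring)
      (fun a b c => by simp [dot3, smul_add]) (fun a b c => by simp [dot3]; ring)
      (fun a b c => by simp [dot3, smul_add])
  refine ⟨fun s => (dt.comp h).compr₂ (FF s), fun s hs θ₁ η₁ θ₂ η₂ => ?_⟩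
  change FF s (dot3 (h (J2 θ₁ η₁)) (J2 θ₂ η₂)) = _
  rw [← curl_smul_grad θ₂ η₂, ← FF_green s hs, ← curl_smul_grad θ₁ η₁, hh, FF_green s hs,
    curl_smul_grad]
  congr 1
  simp [dot3, J2, jac]
  ring

end Pool.MP_f6e9c2_al_work
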