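import Pool.Agent.Lib.MP_f6e9c2_al.Rep

/-!
# The functionals and their eventual vanishing on all substitutions
-/

set_option autoImplicit false

open MvPolynomial

namespace Pool.MP_f6e9c2_al_work

/-- The three invariants of a pair. -/
noncomputable def inv3 (x y : Fin 3 → A3) : Fin 3 → A3 := ![dot3 x x, dot3 x y, dot3 y y]

theorem inv3_0 (x y : Fin 3 → A3) : inv3 x y 0 = dot3 x x := rfl
theorem inv3_1 (x y : Fin 3 → A3) : inv3 x y 1 = dot3 x y := rfl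
theorem inv3_2 (x y : Fin 3 → A3) : inv3 x y 2 = dot3 y y := rfl

/-- Every Lie polynomial in `x, y` is a combination of `x`, `y`, `[x, y]` with universal
coefficients. -/
theorem universal (u : L2) : ∃ α β γ : A3, ∀ ψ : L2 →ₗ⁅ZMod 3⁆ G3, ∀ k,
    ψ u k = aeval (inv3 (ψ (FreeLieAlgebra.of _ 0)) (ψ (FreeLieAlgebra.of _ 1))) α *
        ψ (FreeLieAlgebra.of _ 0) k
      + aeval (inv3 (ψ (FreeLieAlgebra.of _ 0)) (ψ (FreeLieAlgebra.of _ 1))) β *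
        ψ (FreeLieAlgebra.of _ 1) k
      + aeval (inv3 (ψ (FreeLieAlgebra.of _ 0)) (ψ (FreeLieAlgebra.of _ 1))) γ *
        cr (ψ (FreeLieAlgebra.of _ 0)) (ψ (FreeLieAlgebra.of _ 1)) k := by
  induction u using free_induction with
  | of i =>
    fin_cases i
    · exact ⟨1, 0, 0, fun ψ k => by simp⟩
    · exact ⟨0, 1, 0, fun ψ k => by simp⟩
  | zero =>
    refine ⟨0, 0, 0, fun ψ k => ?_⟩
    rw [map_zero, G3.zero_apply]
    simp
  | add a b ha hb =>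
    obtain ⟨α, β, γ, h⟩ := ha
    obtain ⟨α', β', γ', h'⟩ := hb
    refine ⟨α + α', β + β', γ + γ', fun ψ k => ?_⟩
    rw [map_add, G3.add_apply, h, h']
    simp only [map_add]
    ring
  | smul c a ha =>
    obtain ⟨α, β, γ, h⟩ := ha
    refine ⟨c • α, c • β, c • γ, fun ψ k => ?_⟩
    rw [map_smul, G3.smul_apply, h]
    simp only [map_smul, smul_mul_assoc, smul_add]
  | lie a b ha hb =>
    obtain ⟨α, β, γ, h⟩ := ha
    obtain ⟨α', β', γ', h'⟩ := hb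
    refine ⟨(α * γ' - γ * α') * X 1 + (β * γ' - γ * β') * X 2,
      -((α * γ' - γ * α') * X 0) - (β * γ' - γ * β') * X 1, α * β' - β * α', fun ψ k => ?_⟩
    rw [LieHom.map_lie, G3.lie_def]
    simp only [map_add, map_sub, map_neg, map_mul, aeval_X, inv3_0, inv3_1, inv3_2]
    have h1 := h ψ
    have h1' := h' ψ
    generalize ψ a = pa at *
    generalize ψ b = pb at *
    generalize ψ (FreeLieAlgebra.of (ZMod 3) 0) = x at *
    generalize ψ (FreeLieAlgebra.of (ZMod 3) 1) = y at *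
    generalize (aeval (inv3 x y)) α = z1 at *
    generalize (aeval (inv3 x y)) β = z2 at *
    generalize (aeval (inv3 x y)) γ = z3 at *
    generalize (aeval (inv3 x y)) α' = z1' at *
    generalize (aeval (inv3 x y)) β' = z2' at *
    generalize (aeval (inv3 x y)) γ' = z3' at *
    fin_cases k
    · simp only [Fin.zero_eta, cr0, cr1, cr2, h1, h1', dot3]; ring
    · simp only [Fin.mk_one, cr0, cr1, cr2, h1, h1', dot3]; ring
    · simp only [Fin.reduceFinMk, cr0, cr1, cr2, h1, h1', dot3]; ring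

theorem universal_dot (u v : L2) : ∃ G : A3, ∀ ψ : L2 →ₗ⁅ZMod 3⁆ G3,
    dot3 (ψ u) (ψ v) =
      aeval (inv3 (ψ (FreeLieAlgebra.of _ 0)) (ψ (FreeLieAlgebra.of _ 1))) G := by
  obtain ⟨α, β, γ, h⟩ := universal u
  obtain ⟨α', β', γ', h'⟩ := universal v
  refine ⟨α * α' * X 0 + (α * β' + β * α') * X 1 + β * β' * X 2 +
    γ * γ' * (X 0 * X 2 - X 1 ^ 2), fun ψ => ?_⟩
  simp only [map_add, map_sub, map_mul, map_pow, aeval_X, inv3_0, inv3_1, inv3_2]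
  have h1 := h ψ
  have h1' := h' ψ
  generalize ψ u = pa at *
  generalize ψ v = pb at *
  generalize ψ (FreeLieAlgebra.of (ZMod 3) 0) = x at *
  generalize ψ (FreeLieAlgebra.of (ZMod 3) 1) = y at *
  generalize (aeval (inv3 x y)) α = z1 at *
  generalize (aeval (inv3 x y)) β = z2 at *
  generalize (aeval (inv3 x y)) γ = z3 at *
  generalize (aeval (inv3 x y)) α' = z1' at *
  generalize (aeval (inv3 x y)) β' = z2' at *
  generalize (aeval (inv3 x y)) γ' = z3' at *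
  simp only [dot3, h1, h1', cr0, cr1, cr2]
  ring

/-- `θ` and `η` of a triple. -/
noncomputable def th (u : Fin 3 → A3) : A3 := -2 * dot3 u u
noncomputable def et (u v w : Fin 3 → A3) : A3 := dot3 (cr u v) (cr u w)

/-- Eventual vanishing of the pairings of two `gg`s. -/
theorem pairing_vanish (u v w u' v' w' : L2) : ∃ s0, ∀ s ≥ s0, ∀ ψ : L2 →ₗ⁅ZMod 3⁆ G3,
    FF s (th (ψ u) * jac (et (ψ u) (ψ v) (ψ w)) (th (ψ u')) (et (ψ u') (ψ v') (ψ w'))) = 0 := by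
  obtain ⟨G1, h1⟩ := universal_dot u u
  obtain ⟨G2, h2⟩ := universal_dot ⁅u, v⁆ ⁅u, w⁆
  obtain ⟨G3', h3⟩ := universal_dot u' u'
  obtain ⟨G4, h4⟩ := universal_dot ⁅u', v'⁆ ⁅u', w'⁆
  obtain ⟨s0, h⟩ := FF_vanish (-2 * G1) G2 (-2 * G3') G4
  refine ⟨s0, fun s hs ψ => ?_⟩
  have := h s hs (inv3 (ψ (FreeLieAlgebra.of _ 0)) (ψ (FreeLieAlgebra.of _ 1)))
  have hm : ∀ (f : Fin 3 → A3) (G : A3), aeval f (-2 * G) = -2 * aeval f G := fun f G => by
    rw [map_mul, map_neg, map_ofNat]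
  rw [hm, hm, ← h1, ← h2, ← h3, ← h4] at this
  simp only [LieHom.map_lie, G3.lie_def] at this
  exact this

/-- Existence of the functionals. -/
theorem exists_functionals : ∃ (Λ : ℕ → L2 →ₗ[ZMod 3] ZMod 3)
    (b : ℕ → (Fin 3 → A3) →ₗ[ZMod 3] (Fin 3 → A3) →ₗ[ZMod 3] ZMod 3),
    (∀ s ≥ 1, ∀ θ₁ η₁ θ₂ η₂ : A3, b s (J2 θ₁ η₁) (J2 θ₂ η₂) = FF s (θ₁ * jac η₁ θ₂ η₂)) ∧
    (∀ s, ∀ τ ∈ IV (ZMod 3), ∀ w : L2, Λ s ⁅w, τ⁆ = 0) ∧
    (∀ s, ∀ a : ℕ → L2, ∀ c : Fin 3 → Fin 3 → A3,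
      c 0 = J2 (th (rho (a 0))) (et (rho (a 0)) (rho (a 1)) (rho (a 2))) →
      c 1 = J2 (th (rho (a 3))) (et (rho (a 3)) (rho (a 4)) (rho (a 5))) →
      c 2 = J2 (th (rho (a 6))) (et (rho (a 6)) (rho (a 7)) (rho (a 8))) →
      Λ s (hh a) =
        b s (c 0) (c 1) * coeff (Finsupp.single 2 1) (c 2 1)
        - b s (c 0) (c 2) * coeff (Finsupp.single 2 1) (c 1 1)
        - b s (c 1) (c 2) * coeff (Finsupp.single 2 1) (c 0 1)
        + b s (c 2) (c 1) * coeff (Finsupp.single 2 1) (c 0 1)) := by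
  obtain ⟨b, hb⟩ := exists_form
  let lam : (Fin 3 → A3) →ₗ[ZMod 3] ZMod 3 :=
    (lcoeff (ZMod 3) (Finsupp.single 2 1)).comp (LinearMap.proj 1)
  have hlam : ∀ c, lam c = coeff (Finsupp.single 2 1) (c 1) := fun _ => rfl
  let κ : V3 →ₗ[ZMod 3] (Fin 3 → A3) :=
    { toFun := fun v => v.1
      map_add' := fun _ _ => rfl
      map_smul' := fun _ _ => rfl }
  have hκ : ∀ v, κ v = v.1 := fun _ => rfl
  obtain ⟨D, hD1, hD2, hD3⟩ := exists_cubic (K := ZMod 3) (X := Fin 2) (V := V3)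
    (C := Fin 3 → A3)
    (fun j => ((0 : Fin 3 → A3), fun l k => pderiv l ((![XX, YY] : Fin 2 → G3) j k)))
    rho.ker (by
      intro t ht v
      rw [L2_lie, LieHom.mem_ker.1 ht, zero_lie])
  have hD4 := D_snd D hD1 hD2
  have hD5 := D_gg D hD1 hD2
  have hκ2 : ∀ w : L2, ∀ t ∈ rho.ker, κ ⁅w, D t⁆ = 0 := by
    intro w t ht
    have h0 : ∀ l k, (D t).2 l k = 0 := by
      intro l k
      rw [hD4, LieHom.mem_ker.1 ht, G3.zero_apply, map_zero]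
    rw [hκ, L2_lie]
    apply ext3
    · rw [V3.lie_fst0]; simp [dd, h0]
    · rw [V3.lie_fst1]; simp [dd, h0]
    · rw [V3.lie_fst2]; simp [dd, h0]
  have hmem : ∀ u v w : L2, gg u v w ∈ rho.ker := by
    intro u v w
    rw [LieHom.mem_ker, map_gg, G3_gg]
  choose Λ hΛ1 hΛ2 using fun s => hD3 κ hκ2 ((b s).compr₂ (LinearMap.toSpanSingleton (ZMod 3)
    ((Fin 3 → A3) →ₗ[ZMod 3] ZMod 3) lam))
  refine ⟨Λ, b, hb, ?_, ?_⟩
  · intro s τ hτ w
    refine hΛ2 s τ ?_ w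
    refine (LieSubmodule.lieSpan_le.2 ?_ : IV (ZMod 3) ≤ cube rho.ker) hτ
    rintro _ ⟨a, rfl⟩
    exact LieSubmodule.subset_lieSpan ⟨_, hmem _ _ _, _, hmem _ _ _, _, hmem _ _ _, rfl⟩
  · intro s a c h0 h1 h2
    unfold hh
    rw [hΛ1 s _ (hmem _ _ _) _ (hmem _ _ _) _ (hmem _ _ _)]
    have e0 : κ (D (gg (a 0) (a 1) (a 2))) = c 0 := by rw [hκ, hD5, h0]; rfl
    have e1 : κ (D (gg (a 3) (a 4) (a 5))) = c 1 := by rw [hκ, hD5, h1]; rfl
    have e2 : κ (D (gg (a 6) (a 7) (a 8))) = c 2 := by rw [hκ, hD5, h2]; rfl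
    rw [e0, e1, e2]
    simp only [LinearMap.compr₂_apply, LinearMap.toSpanSingleton_apply, LinearMap.smul_apply,
      smul_eq_mul, hlam]

theorem propA (Λ : ℕ → L2 →ₗ[ZMod 3] ZMod 3)
    (b : ℕ → (Fin 3 → A3) →ₗ[ZMod 3] (Fin 3 → A3) →ₗ[ZMod 3] ZMod 3)
    (hb : ∀ s ≥ 1, ∀ θ₁ η₁ θ₂ η₂ : A3,
      b s (J2 θ₁ η₁) (J2 θ₂ η₂) = FF s (θ₁ * jac η₁ θ₂ η₂))
    (hC : ∀ s, ∀ τ ∈ IV (ZMod 3), ∀ w : L2, Λ s ⁅w, τ⁆ = 0)
    (hΛ : ∀ s, ∀ a : ℕ → L2, ∀ c : Fin 3 → Fin 3 → A3,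
      c 0 = J2 (th (rho (a 0))) (et (rho (a 0)) (rho (a 1)) (rho (a 2))) →
      c 1 = J2 (th (rho (a 3))) (et (rho (a 3)) (rho (a 4)) (rho (a 5))) →
      c 2 = J2 (th (rho (a 6))) (et (rho (a 6)) (rho (a 7)) (rho (a 8))) →
      Λ s (hh a) =
        b s (c 0) (c 1) * coeff (Finsupp.single 2 1) (c 2 1)
        - b s (c 0) (c 2) * coeff (Finsupp.single 2 1) (c 1 1)
        - b s (c 1) (c 2) * coeff (Finsupp.single 2 1) (c 0 1)
        + b s (c 2) (c 1) * coeff (Finsupp.single 2 1) (c 0 1))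
    (f : L2) (hf : f ∈ IV (ZMod 3)) :
    ∃ s0, ∀ s ≥ s0, ∀ φ : L2 →ₗ⁅ZMod 3⁆ L2, Λ s (φ f) = 0 := by
  unfold IV at hf
  induction hf using LieSubmodule.lieSpan_induction with
  | mem x hx =>
    obtain ⟨a, rfl⟩ := hx
    obtain ⟨s1, h1⟩ := pairing_vanish (a 0) (a 1) (a 2) (a 3) (a 4) (a 5)
    obtain ⟨s2, h2⟩ := pairing_vanish (a 0) (a 1) (a 2) (a 6) (a 7) (a 8)
    obtain ⟨s3, h3⟩ := pairing_vanish (a 3) (a 4) (a 5) (a 6) (a 7) (a 8)
    obtain ⟨s4, h4⟩ := pairing_vanish (a 6) (a 7) (a 8) (a 3) (a 4) (a 5)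
    refine ⟨1 + s1 + s2 + s3 + s4, fun s hs φ => ?_⟩
    rw [map_hh, hΛ s (fun i => φ (a i))
      ![J2 (th (rho (φ (a 0)))) (et (rho (φ (a 0))) (rho (φ (a 1))) (rho (φ (a 2)))),
        J2 (th (rho (φ (a 3)))) (et (rho (φ (a 3))) (rho (φ (a 4))) (rho (φ (a 5)))),
        J2 (th (rho (φ (a 6)))) (et (rho (φ (a 6))) (rho (φ (a 7))) (rho (φ (a 8))))]
      rfl rfl rfl]
    simp only [Matrix.cons_val_zero, Matrix.cons_val_one, Matrix.cons_val]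
    rw [hb s (by omega), hb s (by omega), hb s (by omega), hb s (by omega)]
    have e1 := h1 s (by omega) (rho.comp φ)
    have e2 := h2 s (by omega) (rho.comp φ)
    have e3 := h3 s (by omega) (rho.comp φ)
    have e4 := h4 s (by omega) (rho.comp φ)
    simp only [LieHom.comp_apply] at e1 e2 e3 e4
    rw [e1, e2, e3, e4]
    ring
  | zero => exact ⟨0, fun s _ φ => by simp⟩
  | add x y _ _ hx hy =>
    obtain ⟨s1, h1⟩ := hx
    obtain ⟨s2, h2⟩ := hy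
    refine ⟨max s1 s2, fun s hs φ => ?_⟩
    rw [map_add, map_add, h1 s (le_trans (le_max_left _ _) hs),
      h2 s (le_trans (le_max_right _ _) hs), add_zero]
  | smul c x _ hx =>
    obtain ⟨s1, h1⟩ := hx
    exact ⟨s1, fun s hs φ => by rw [map_smul, map_smul, h1 s hs, smul_zero]⟩
  | lie w x hx _ =>
    refine ⟨0, fun s _ φ => ?_⟩
    rw [LieHom.map_lie]
    exact hC s _ (map_IV_mem φ x hx) _

end Pool.MP_f6e9c2_al_work
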