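import Pool.Agent.Lib.MP_f6e9c2_al.PropA

/-!
# Non-vanishing of the functionals
-/

set_option autoImplicit false

open MvPolynomial

namespace Pool.MP_f6e9c2_al_work

theorem XX0 : XX 0 = X 0 + 1 := rfl
theorem XX1 : XX 1 = X 0 + 1 := rfl
theorem XX2 : XX 2 = X 0 - 1 := rfl
theorem YY0 : YY 0 = X 1 + X 2 := rfl
theorem YY1 : YY 1 = X 2 - X 1 := rfl
theorem YY2 : YY 2 = X 2 := rfl

theorem dotXX : dot3 XX XX = -X 0 := by
  simp only [dot3, XX0, XX1, XX2]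
  linear_combination ((X 0) ^ 2 + X 0 + 1) * three_zero

theorem dotXY : dot3 XX YY = X 2 := by
  simp only [dot3, XX0, XX1, XX2, YY0, YY1, YY2]
  linear_combination (X 0 * X 2) * three_zero

theorem dotYY : dot3 YY YY = -(X 1) ^ 2 := by
  simp only [dot3, YY0, YY1, YY2]
  linear_combination ((X 1) ^ 2 + (X 2) ^ 2) * three_zero

theorem dotZZ : dot3 (cr XX YY) (cr XX YY) = X 0 * X 1 ^ 2 - X 2 ^ 2 := by
  have h : dot3 (cr XX YY) (cr XX YY) = dot3 XX XX * dot3 YY YY - dot3 XX YY ^ 2 := by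
    simp only [dot3, cr0, cr1, cr2]; ring
  rw [h, dotXX, dotXY, dotYY]
  ring

theorem cr_aa (U V : Fin 3 → A3) (g : A3) (p : Fin 3 → A3) (hp : ∀ l, p l = g * cr U V l)
    (l : Fin 3) : cr U (cr U p) l = -dot3 U U * g * cr U V l := by
  fin_cases l
  · simp only [Fin.zero_eta, cr0, cr1, cr2, hp, dot3]; ring
  · simp only [Fin.mk_one, cr0, cr1, cr2, hp, dot3]; ring
  · simp only [Fin.reduceFinMk, cr0, cr1, cr2, hp, dot3]; ring

theorem cr_bb (U V : Fin 3 → A3) (g : A3) (p : Fin 3 → A3) (hp : ∀ l, p l = g * cr U V l)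
    (l : Fin 3) : cr V (cr V p) l = -dot3 V V * g * cr U V l := by
  fin_cases l
  · simp only [Fin.zero_eta, cr0, cr1, cr2, hp, dot3]; ring
  · simp only [Fin.mk_one, cr0, cr1, cr2, hp, dot3]; ring
  · simp only [Fin.reduceFinMk, cr0, cr1, cr2, hp, dot3]; ring

theorem cr_ab (U V : Fin 3 → A3) (g : A3) (p : Fin 3 → A3) (hp : ∀ l, p l = g * cr U V l)
    (l : Fin 3) : cr U (cr V p) l = -dot3 U V * g * cr U V l := by
  fin_cases l
  · simp only [Fin.zero_eta, cr0, cr1, cr2, hp, dot3]; ring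
  · simp only [Fin.mk_one, cr0, cr1, cr2, hp, dot3]; ring
  · simp only [Fin.reduceFinMk, cr0, cr1, cr2, hp, dot3]; ring

theorem cr_ba (U V : Fin 3 → A3) (g : A3) (p : Fin 3 → A3) (hp : ∀ l, p l = g * cr U V l)
    (l : Fin 3) : cr V (cr U p) l = -dot3 U V * g * cr U V l := by
  fin_cases l
  · simp only [Fin.zero_eta, cr0, cr1, cr2, hp, dot3]; ring
  · simp only [Fin.mk_one, cr0, cr1, cr2, hp, dot3]; ring
  · simp only [Fin.reduceFinMk, cr0, cr1, cr2, hp, dot3]; ring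

noncomputable abbrev gx : L2 := FreeLieAlgebra.of (ZMod 3) 0
noncomputable abbrev gy : L2 := FreeLieAlgebra.of (ZMod 3) 1

theorem rho_gx : rho gx = XX := by simp [rho]
theorem rho_gy : rho gy = YY := by simp [rho]

theorem exists_w (i j k : ℕ) : ∃ w : L2, ∀ l,
    rho w l = X 0 ^ i * X 2 ^ j * (X 1 ^ 2) ^ k * cr XX YY l := by
  induction i with
  | zero =>
    induction j with
    | zero =>
      induction k with
      | zero =>
        refine ⟨⁅gx, gy⁆, fun l => ?_⟩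
        rw [LieHom.map_lie, rho_gx, rho_gy, G3.lie_def]
        simp
      | succ k ih =>
        obtain ⟨w, hw⟩ := ih
        refine ⟨⁅gy, ⁅gy, w⁆⁆, fun l => ?_⟩
        rw [LieHom.map_lie, LieHom.map_lie, rho_gy, G3.lie_def, G3.lie_def,
          cr_bb XX YY _ _ hw, dotYY]
        ring
    | succ j ih =>
      obtain ⟨w, hw⟩ := ih
      refine ⟨-⁅gx, ⁅gy, w⁆⁆, fun l => ?_⟩
      rw [map_neg, G3.neg_apply, LieHom.map_lie, LieHom.map_lie, rho_gy, rho_gx, G3.lie_def,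
        G3.lie_def, cr_ab XX YY _ _ hw, dotXY]
      ring
  | succ i ih =>
    obtain ⟨w, hw⟩ := ih
    refine ⟨⁅gx, ⁅gx, w⁆⁆, fun l => ?_⟩
    rw [LieHom.map_lie, LieHom.map_lie, rho_gx, G3.lie_def, G3.lie_def,
      cr_aa XX YY _ _ hw, dotXX]
    ring

theorem FF_symm (s : ℕ) (hs : 1 ≤ s) (θ₁ η₁ θ₂ η₂ : A3) :
    FF s (θ₂ * jac η₂ θ₁ η₁) = FF s (θ₁ * jac η₁ θ₂ η₂) := by
  rw [← sub_eq_zero, ← map_sub]
  have h : θ₂ * jac η₂ θ₁ η₁ - θ₁ * jac η₁ θ₂ η₂ = - jac η₁ (θ₁ * θ₂) η₂ := by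
    simp only [jac, pderiv_mul]; ring
  rw [h, map_neg, FF_jac s hs, neg_zero]

theorem coeff_mono (m : Fin 3 →₀ ℕ) (a b c : ℕ) :
    coeff m (X 0 ^ a * X 1 ^ b * X 2 ^ c : A3) = if m 0 = a ∧ m 1 = b ∧ m 2 = c then 1 else 0 := by
  have h : (X 0 ^ a * X 1 ^ b * X 2 ^ c : A3) =
      monomial (Finsupp.single 0 a + Finsupp.single 1 b + Finsupp.single 2 c) 1 := by
    simp only [X_pow_eq_monomial, monomial_mul, one_mul]
  rw [h, coeff_monomial]
  congr 1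
  apply propext
  constructor
  · rintro rfl
    simp
  · rintro ⟨h0, h1, h2⟩
    ext k
    fin_cases k <;> simp [h0, h1, h2]

theorem expo_eq (s Q : ℕ) (hQ : 3 ^ s = Q + 3) :
    expo s 0 = Q + 2 ∧ expo s 1 = 2 * Q + 5 ∧ expo s 2 = Q + 2 := by
  refine ⟨?_, ?_, ?_⟩
  · simp only [expo, Finsupp.equivFunOnFinite_symm_apply_apply, Matrix.cons_val_zero]
    omega
  · simp only [expo, Finsupp.equivFunOnFinite_symm_apply_apply, Matrix.cons_val_one,
      Matrix.cons_val_zero]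
    omega
  · simp only [expo, Finsupp.equivFunOnFinite_symm_apply_apply, Matrix.cons_val]
    omega

theorem key_value (s Q : ℕ) (hQ : 3 ^ s = Q + 3) (hs : 1 ≤ s) :
    FF s (X 0 * jac (X 0 * X 1 ^ 2 - X 2 ^ 2) (X 1 ^ 2)
      (X 0 ^ (Q + 1) * X 2 ^ Q * (X 1 ^ 2) ^ (Q + 1) * X 2 * (X 0 * X 1 ^ 2 - X 2 ^ 2))) = 2 := by
  have hQ3 : (Q : A3) = 0 := by
    have h1 : 3 ∣ Q := by
      have : 3 ∣ 3 ^ s := dvd_pow_self 3 (by omega)
      omega
    obtain ⟨r, rfl⟩ := h1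
    rw [Nat.cast_mul]
    have := three_zero
    push_cast
    rw [this, zero_mul]
  have h : (X 0 * jac (X 0 * X 1 ^ 2 - X 2 ^ 2) (X 1 ^ 2)
      (X 0 ^ (Q + 1) * X 2 ^ Q * (X 1 ^ 2) ^ (Q + 1) * X 2 * (X 0 * X 1 ^ 2 - X 2 ^ 2)) : A3) =
      (2 : ZMod 3) • (X 0 ^ (Q + 3) * X 1 ^ (2 * Q + 7) * X 2 ^ Q)
      + (2 : ZMod 3) • (X 0 ^ (Q + 2) * X 1 ^ (2 * Q + 5) * X 2 ^ (Q + 2))
      + (2 : ZMod 3) • (X 0 ^ (Q + 1) * X 1 ^ (2 * Q + 3) * X 2 ^ (Q + 4)) := by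
    have hC2 : (C (2 : ZMod 3) : A3) = 2 := map_ofNat C 2
    simp only [smul_eq_C_mul, hC2]
    have s1 : ∀ q e : A3, jac q (X 1 ^ 2) (e * q) =
        q * (2 * X 1 * (pderiv 0 q * pderiv 2 e - pderiv 2 q * pderiv 0 e)) := by
      intro q e
      have d0 : pderiv 0 (X 1 ^ 2 : A3) = 0 := by
        rw [pderiv_pow, pderiv_X_of_ne (by decide), mul_zero]
      have d2 : pderiv 2 (X 1 ^ 2 : A3) = 0 := by
        rw [pderiv_pow, pderiv_X_of_ne (by decide), mul_zero]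
      have d1 : pderiv 1 (X 1 ^ 2 : A3) = 2 * X 1 := by
        rw [pderiv_pow, pderiv_X_self]; simp
      simp only [jac, d0, d1, d2, pderiv_mul]
      ring
    rw [s1]
    have q0 : pderiv 0 (X 0 * X 1 ^ 2 - X 2 ^ 2 : A3) = X 1 ^ 2 := by
      rw [map_sub, pderiv_mul, pderiv_pow, pderiv_pow, pderiv_X_self,
        pderiv_X_of_ne (show (1 : Fin 3) ≠ 0 by decide),
        pderiv_X_of_ne (show (2 : Fin 3) ≠ 0 by decide)]
      ring
    have q2 : pderiv 2 (X 0 * X 1 ^ 2 - X 2 ^ 2 : A3) = -(2 * X 2) := by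
      rw [map_sub, pderiv_mul, pderiv_pow, pderiv_pow, pderiv_X_self,
        pderiv_X_of_ne (show (1 : Fin 3) ≠ 2 by decide),
        pderiv_X_of_ne (show (0 : Fin 3) ≠ 2 by decide)]
      push_cast
      ring
    have e0 : pderiv 0 (X 0 ^ (Q + 1) * X 2 ^ Q * (X 1 ^ 2) ^ (Q + 1) * X 2 : A3) =
        ((Q : A3) + 1) * (X 0 ^ Q * X 2 ^ Q * (X 1 ^ 2) ^ (Q + 1) * X 2) := by
      simp only [pderiv_mul, pderiv_pow, pderiv_X_self,
        pderiv_X_of_ne (show (1 : Fin 3) ≠ 0 by decide),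
        pderiv_X_of_ne (show (2 : Fin 3) ≠ 0 by decide), Nat.add_sub_cancel]
      push_cast
      ring
    have e2 : pderiv 2 (X 0 ^ (Q + 1) * X 2 ^ Q * (X 1 ^ 2) ^ (Q + 1) * X 2 : A3) =
        ((Q : A3) + 1) * (X 0 ^ (Q + 1) * X 2 ^ Q * (X 1 ^ 2) ^ (Q + 1)) := by
      have e3 : (X 0 ^ (Q + 1) * X 2 ^ Q * (X 1 ^ 2) ^ (Q + 1) * X 2 : A3) =
        X 0 ^ (Q + 1) * X 2 ^ (Q + 1) * (X 1 ^ 2) ^ (Q + 1) := by ring
      rw [e3]
      simp only [pderiv_mul, pderiv_pow, pderiv_X_self,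
        pderiv_X_of_ne (show (1 : Fin 3) ≠ 2 by decide),
        pderiv_X_of_ne (show (0 : Fin 3) ≠ 2 by decide), Nat.add_sub_cancel]
      push_cast
      ring
    rw [q0, q2, e0, e2]
    linear_combination (2 * X 0 ^ (Q + 1) * X 1 ^ (2 * Q + 3) * X 2 ^ Q *
      (X 0 * X 1 ^ 2 - X 2 ^ 2) * (X 0 * X 1 ^ 2 + 2 * X 2 ^ 2)) * hQ3 +
      (-2 * X 0 ^ (Q + 1) * X 1 ^ (2 * Q + 3) * X 2 ^ (Q + 4)) * three_zero
  rw [h, map_add, map_add, map_smul, map_smul, map_smul, FF_apply, FF_apply, FF_apply,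
    coeff_mono, coeff_mono, coeff_mono]
  obtain ⟨e0, e1, e2⟩ := expo_eq s Q hQ
  rw [e0, e1, e2]
  simp

theorem lam_value : coeff (Finsupp.single 2 1)
    (J2 (th XX) (et XX YY YY) 1) = (1 : ZMod 3) := by
  have h1 : th XX = -X 0 := by
    unfold th
    rw [dotXX]
    linear_combination (X 0) * three_zero
  have h2 : et XX YY YY = X 0 * X 1 ^ 2 - X 2 ^ 2 := dotZZ
  have h3 : J2 (th XX) (et XX YY YY) 1 = X 2 := by
    rw [h1, h2, J21]
    simp only [map_neg, map_sub, pderiv_mul, pderiv_pow, pderiv_X_self,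
      pderiv_X_of_ne (show (1 : Fin 3) ≠ 2 by decide),
      pderiv_X_of_ne (show (0 : Fin 3) ≠ 2 by decide),
      pderiv_X_of_ne (show (1 : Fin 3) ≠ 0 by decide),
      pderiv_X_of_ne (show (2 : Fin 3) ≠ 0 by decide)]
    push_cast
    linear_combination (-X 2) * three_zero
  rw [h3, coeff_X]
  simp

theorem propB (Λ : ℕ → L2 →ₗ[ZMod 3] ZMod 3)
    (b : ℕ → (Fin 3 → A3) →ₗ[ZMod 3] (Fin 3 → A3) →ₗ[ZMod 3] ZMod 3)
    (hb : ∀ s ≥ 1, ∀ θ₁ η₁ θ₂ η₂ : A3,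
      b s (J2 θ₁ η₁) (J2 θ₂ η₂) = FF s (θ₁ * jac η₁ θ₂ η₂))
    (hΛ : ∀ s, ∀ a : ℕ → L2, ∀ c : Fin 3 → Fin 3 → A3,
      c 0 = J2 (th (rho (a 0))) (et (rho (a 0)) (rho (a 1)) (rho (a 2))) →
      c 1 = J2 (th (rho (a 3))) (et (rho (a 3)) (rho (a 4)) (rho (a 5))) →
      c 2 = J2 (th (rho (a 6))) (et (rho (a 6)) (rho (a 7)) (rho (a 8))) →
      Λ s (hh a) =
        b s (c 0) (c 1) * coeff (Finsupp.single 2 1) (c 2 1)
        - b s (c 0) (c 2) * coeff (Finsupp.single 2 1) (c 1 1)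
        - b s (c 1) (c 2) * coeff (Finsupp.single 2 1) (c 0 1)
        + b s (c 2) (c 1) * coeff (Finsupp.single 2 1) (c 0 1))
    (s : ℕ) (hs : 1 ≤ s) : ∃ τ ∈ IV (ZMod 3), Λ s τ ≠ 0 := by
  obtain ⟨Q, hQ⟩ : ∃ Q, 3 ^ s = Q + 3 := by
    have : 3 ^ 1 ≤ 3 ^ s := Nat.pow_le_pow_right (by norm_num) hs
    exact ⟨3 ^ s - 3, by omega⟩
  obtain ⟨w, hw⟩ := exists_w (Q + 1) Q (Q + 1)
  let a : ℕ → L2 := fun n => match n with
    | 0 => gx
    | 1 => gy
    | 2 => gy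
    | 3 => gy
    | 4 => ⁅gx, w⁆
    | 5 => gx
    | 6 => gx
    | 7 => gy
    | _ => gy
  refine ⟨hh a, hh_mem_IV a, ?_⟩
  have r0 : rho (a 0) = XX := rho_gx
  have r1 : rho (a 1) = YY := rho_gy
  have r2 : rho (a 2) = YY := rho_gy
  have r3 : rho (a 3) = YY := rho_gy
  have r4 : rho (a 4) = cr XX (rho w) := by
    change rho ⁅gx, w⁆ = _
    rw [LieHom.map_lie, rho_gx]; rfl
  have r5 : rho (a 5) = XX := rho_gx
  have r6 : rho (a 6) = XX := rho_gx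
  have r7 : rho (a 7) = YY := rho_gy
  have r8 : rho (a 8) = YY := rho_gy
  have h := hΛ s a ![J2 (th XX) (et XX YY YY), J2 (th YY) (et YY (cr XX (rho w)) XX),
    J2 (th XX) (et XX YY YY)] (by rw [r0, r1, r2]; rfl) (by rw [r3, r4, r5]; rfl)
    (by rw [r6, r7, r8]; rfl)
  rw [h]
  simp only [Matrix.cons_val_zero, Matrix.cons_val_one, Matrix.cons_val]
  rw [hb s hs, hb s hs, hb s hs, FF_symm s hs (th XX) (et XX YY YY) (th YY)
    (et YY (cr XX (rho w)) XX), lam_value]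
  have hz : jac (et XX YY YY) (th XX) (et XX YY YY) = 0 := by
    unfold jac; ring
  rw [hz, mul_zero, map_zero]
  have hval : FF s (th XX * jac (et XX YY YY) (th YY) (et YY (cr XX (rho w)) XX)) = 2 := by
    have t1 : th XX = -X 0 := by
      unfold th
      rw [dotXX]
      linear_combination (X 0) * three_zero
    have t2 : th YY = -(X 1 ^ 2) := by
      unfold th
      rw [dotYY]
      linear_combination (X 1 ^ 2) * three_zero
    have t3 : et XX YY YY = X 0 * X 1 ^ 2 - X 2 ^ 2 := dotZZ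
    have t4 : et YY (cr XX (rho w)) XX =
        X 0 ^ (Q + 1) * X 2 ^ Q * (X 1 ^ 2) ^ (Q + 1) * X 2 * (X 0 * X 1 ^ 2 - X 2 ^ 2) := by
      have e1 := cr_ba XX YY _ (rho w) hw
      have e2 : ∀ l, cr YY XX l = - cr XX YY l := by
        intro l
        fin_cases l
        · simp only [Fin.zero_eta, cr0]; ring
        · simp only [Fin.mk_one, cr1]; ring
        · simp only [Fin.reduceFinMk, cr2]; ring
      unfold et
      rw [← dotZZ]
      unfold dot3 at *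
      rw [e1, e1, e1, e2, e2, e2]
      have e3 := dotXY
      unfold dot3 at e3
      rw [e3]
      ring
    have hj : ∀ z f g h : A3, -z * jac f (-g) h = z * jac f g h := by
      intro z f g h
      simp only [jac, map_neg]
      ring
    rw [t1, t2, t3, t4, hj]
    exact key_value s Q hQ hs
  rw [hval, zero_mul]
  decide

end Pool.MP_f6e9c2_al_work
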