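import Mathlib

/-!
# Cubic functionals on a free Lie algebra

`L` is the free Lie algebra on a type `X` over a commutative ring `K`, `V` an `L`-module.  We build
a derivation `D : L → V` together with second and third order companions `M2`, `M3`, and from these
a functional on the ideal generated by all `⁅t₁, ⁅t₂, t₃⁆⁆`, `tᵢ` in an ideal `I` acting trivially.
-/

set_option autoImplicit false

open LieAlgebra LieModule.Cohomology TensorProduct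
open scoped TensorProduct

namespace Pool.MP_f6e9c2_al_work

section primitive

variable {K : Type*} [CommRing K] {X : Type*}
variable {N : Type*} [AddCommGroup N] [Module K N] [LieRingModule (FreeLieAlgebra K X) N]
  [LieModule K (FreeLieAlgebra K X) N]

/-- 2-cocycles on a free Lie algebra have primitives with prescribed values on the generators. -/
theorem exists_primitive (c : FreeLieAlgebra K X →ₗ[K] FreeLieAlgebra K X →ₗ[K] N)
    (halt : ∀ x, c x x = 0)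
    (hco : ∀ x y z, ⁅x, c y z⁆ - ⁅y, c x z⁆ + ⁅z, c x y⁆ - c ⁅x, y⁆ z + c ⁅x, z⁆ y
      - c ⁅y, z⁆ x = 0)
    (m : X → N) :
    ∃ M : FreeLieAlgebra K X →ₗ[K] N, (∀ x, M (FreeLieAlgebra.of K x) = m x) ∧
      ∀ w w', M ⁅w, w'⁆ = ⁅w, M w'⁆ - ⁅w', M w⁆ + c w w' := by
  let c1 : twoCochain K (FreeLieAlgebra K X) N := ⟨c, halt⟩
  let c2 : twoCocycle K (FreeLieAlgebra K X) N := ⟨c1, by
    rw [mem_twoCocycle_iff]
    ext x y z
    simp only [d₂₃_apply, LinearMap.zero_apply]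
    exact hco x y z⟩
  let φ : FreeLieAlgebra K X →ₗ⁅K⁆ ofTwoCocycle c2 :=
    FreeLieAlgebra.lift K fun x => ofProd c2 (FreeLieAlgebra.of K x, m x)
  let p : ofTwoCocycle c2 →ₗ⁅K⁆ FreeLieAlgebra K X :=
    { toFun := fun x => ((ofProd c2).symm x).1
      map_add' := fun _ _ => rfl
      map_smul' := fun _ _ => rfl
      map_lie' := fun {_ _} => rfl }
  have hp : p.comp φ = LieHom.id := by
    apply FreeLieAlgebra.hom_ext
    intro x
    simp [p, φ]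
  have hp' : ∀ w, ((ofProd c2).symm (φ w)).1 = w := fun w => by
    have := congrArg (fun f => f w) hp
    simpa [p] using this
  let q : ofTwoCocycle c2 →ₗ[K] N :=
    { toFun := fun x => ((ofProd c2).symm x).2
      map_add' := fun _ _ => rfl
      map_smul' := fun _ _ => rfl }
  refine ⟨q.comp (φ : FreeLieAlgebra K X →ₗ[K] ofTwoCocycle c2), ?_, ?_⟩
  · intro x
    simp [q, φ]
  · intro w w'
    simp only [LinearMap.comp_apply, LieHom.coe_toLinearMap, LieHom.map_lie, q, LinearMap.coe_mk,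
      AddHom.coe_mk]
    rw [bracket_ofTwoCocycle]
    simp only [hp', Equiv.symm_apply_apply]
    change c w w' + _ - _ = _
    abel

end primitive

section triple

variable {K : Type*} [CommRing K] {X : Type*}
variable {V : Type*} [AddCommGroup V] [Module K V] [LieRingModule (FreeLieAlgebra K X) V]
  [LieModule K (FreeLieAlgebra K X) V]

theorem lie_assoc (w : FreeLieAlgebra K X) (t : (V ⊗[K] V) ⊗[K] V) :
    ⁅w, TensorProduct.assoc K V V V t⁆ = TensorProduct.assoc K V V V ⁅w, t⁆ := by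
  induction t using TensorProduct.induction_on with
  | zero => simp
  | add a b ha hb => simp [ha, hb]
  | tmul a v =>
    induction a using TensorProduct.induction_on with
    | zero => simp
    | add a b ha hb => 
      simp only [TensorProduct.add_tmul, map_add, lie_add, ha, hb]
    | tmul a b => 
      simp [TensorProduct.tmul_add, TensorProduct.add_tmul, add_assoc]

/-- The triple of primitives. -/
theorem exists_triple (d : X → V) :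
    ∃ (D : FreeLieAlgebra K X →ₗ[K] V) (M2 : FreeLieAlgebra K X →ₗ[K] V ⊗[K] V)
      (M3 : FreeLieAlgebra K X →ₗ[K] V ⊗[K] (V ⊗[K] V)),
      (∀ x, D (FreeLieAlgebra.of K x) = d x) ∧
      (∀ w w', D ⁅w, w'⁆ = ⁅w, D w'⁆ - ⁅w', D w⁆) ∧
      (∀ w w', M2 ⁅w, w'⁆ = ⁅w, M2 w'⁆ - ⁅w', M2 w⁆ + (D w ⊗ₜ[K] D w' - D w' ⊗ₜ[K] D w)) ∧
      (∀ w w', M3 ⁅w, w'⁆ = ⁅w, M3 w'⁆ - ⁅w', M3 w⁆ +
        (D w ⊗ₜ[K] M2 w' + TensorProduct.assoc K V V V (M2 w ⊗ₜ[K] D w')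
          - (D w' ⊗ₜ[K] M2 w + TensorProduct.assoc K V V V (M2 w' ⊗ₜ[K] D w)))) := by
  obtain ⟨D, hD1, hD2⟩ := exists_primitive (0 : FreeLieAlgebra K X →ₗ[K] FreeLieAlgebra K X →ₗ[K] V)
    (by simp) (by simp) d
  have hD3 : ∀ w w', D ⁅w, w'⁆ = ⁅w, D w'⁆ - ⁅w', D w⁆ := by
    intro w w'
    rw [hD2]
    simp
  let P2 : FreeLieAlgebra K X →ₗ[K] FreeLieAlgebra K X →ₗ[K] V ⊗[K] V :=
    (TensorProduct.mk K V V).compl₁₂ D D
  have hP2 : ∀ w w', P2 w w' = D w ⊗ₜ[K] D w' := fun _ _ => rfl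
  obtain ⟨M2, -, hM2⟩ := exists_primitive (P2 - P2.flip) (by simp) (by
    intro x y z
    simp only [LinearMap.sub_apply, LinearMap.flip_apply, hP2, hD3, lie_sub,
      LieModule.lie_tmul_right, TensorProduct.sub_tmul, TensorProduct.tmul_sub]
    abel) (fun _ => 0)
  have hM2' : ∀ w w', M2 ⁅w, w'⁆ = ⁅w, M2 w'⁆ - ⁅w', M2 w⁆ +
      (D w ⊗ₜ[K] D w' - D w' ⊗ₜ[K] D w) := hM2
  let P3 : FreeLieAlgebra K X →ₗ[K] FreeLieAlgebra K X →ₗ[K] V ⊗[K] (V ⊗[K] V) :=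
    (TensorProduct.mk K V (V ⊗[K] V)).compl₁₂ D M2 +
      ((TensorProduct.mk K (V ⊗[K] V) V).compl₁₂ M2 D).compr₂
        (TensorProduct.assoc K V V V).toLinearMap
  have hP3 : ∀ w w', P3 w w' = D w ⊗ₜ[K] M2 w' +
    TensorProduct.assoc K V V V (M2 w ⊗ₜ[K] D w') := fun _ _ => rfl
  obtain ⟨M3, -, hM3⟩ := exists_primitive (P3 - P3.flip) (by simp) (by
    intro x y z
    simp only [LinearMap.sub_apply, LinearMap.flip_apply, hP3, hD3, hM2', lie_sub, lie_add,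
      LieModule.lie_tmul_right, TensorProduct.sub_tmul, TensorProduct.tmul_sub,
      TensorProduct.add_tmul, TensorProduct.tmul_add, lie_assoc, map_add, map_sub,
      TensorProduct.assoc_tmul]
    abel) (fun _ => 0)
  exact ⟨D, M2, M3, hD1, hD3, hM2', hM3⟩

end triple

section cubic

variable {K : Type*} [CommRing K] {X : Type*}
variable {V : Type*} [AddCommGroup V] [Module K V] [LieRingModule (FreeLieAlgebra K X) V]
  [LieModule K (FreeLieAlgebra K X) V]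
variable {C : Type*} [AddCommGroup C] [Module K C]

/-- The ideal generated by all `⁅t₁, ⁅t₂, t₃⁆⁆` with `tᵢ ∈ I`. -/
noncomputable def cube (I : LieIdeal K (FreeLieAlgebra K X)) : LieIdeal K (FreeLieAlgebra K X) :=
  LieSubmodule.lieSpan K (FreeLieAlgebra K X)
    {x | ∃ t₁ ∈ I, ∃ t₂ ∈ I, ∃ t₃ ∈ I, ⁅t₁, ⁅t₂, t₃⁆⁆ = x}

/-- The cubic functional. -/
theorem exists_cubic (d : X → V) (I : LieIdeal K (FreeLieAlgebra K X))
    (hI : ∀ t ∈ I, ∀ v : V, ⁅t, v⁆ = 0) :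
    ∃ D : FreeLieAlgebra K X →ₗ[K] V, (∀ x, D (FreeLieAlgebra.of K x) = d x) ∧
      (∀ w w', D ⁅w, w'⁆ = ⁅w, D w'⁆ - ⁅w', D w⁆) ∧
      ∀ κ : V →ₗ[K] C, (∀ w : FreeLieAlgebra K X, ∀ t ∈ I, κ ⁅w, D t⁆ = 0) →
      ∀ Θ : C →ₗ[K] C →ₗ[K] C →ₗ[K] K,
      ∃ Λ : FreeLieAlgebra K X →ₗ[K] K,
        (∀ t₁ ∈ I, ∀ t₂ ∈ I, ∀ t₃ ∈ I, Λ ⁅t₁, ⁅t₂, t₃⁆⁆ =
          Θ (κ (D t₁)) (κ (D t₂)) (κ (D t₃)) - Θ (κ (D t₁)) (κ (D t₃)) (κ (D t₂))
          - Θ (κ (D t₂)) (κ (D t₃)) (κ (D t₁)) + Θ (κ (D t₃)) (κ (D t₂)) (κ (D t₁))) ∧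
        (∀ τ ∈ cube I, ∀ w : FreeLieAlgebra K X, Λ ⁅w, τ⁆ = 0) := by
  obtain ⟨D, M2, M3, hD1, hD, hM2, hM3⟩ := exists_triple (K := K) (X := X) (V := V) d
  refine ⟨D, hD1, hD, ?_⟩
  intro κ hκ Θ
  have hI2 : ∀ t ∈ I, ∀ x : V ⊗[K] V, ⁅t, x⁆ = 0 := by
    intro t ht x
    induction x using TensorProduct.induction_on with
    | zero => simp
    | add a b ha hb => rw [lie_add, ha, hb, add_zero]
    | tmul a b => rw [LieModule.lie_tmul_right, hI t ht, hI t ht]; simp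
  have hI3 : ∀ t ∈ I, ∀ x : V ⊗[K] (V ⊗[K] V), ⁅t, x⁆ = 0 := by
    intro t ht x
    induction x using TensorProduct.induction_on with
    | zero => simp
    | add a b ha hb => rw [lie_add, ha, hb, add_zero]
    | tmul a b => rw [LieModule.lie_tmul_right, hI t ht, hI2 t ht]; simp
  let Θc : C ⊗[K] (C ⊗[K] C) →ₗ[K] K :=
    TensorProduct.lift (TensorProduct.uncurry (.id K) C C K ∘ₗ Θ)
  let Θ' : V ⊗[K] (V ⊗[K] V) →ₗ[K] K := Θc ∘ₗ TensorProduct.map κ (TensorProduct.map κ κ)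
  have hΘ' : ∀ a b c, Θ' (a ⊗ₜ[K] (b ⊗ₜ[K] c)) = Θ (κ a) (κ b) (κ c) := fun _ _ _ => rfl
  let S : Submodule K (V ⊗[K] (V ⊗[K] V)) :=
    Submodule.span K {x | ∃ t₁ ∈ I, ∃ t₂ ∈ I, ∃ t₃ ∈ I, D t₁ ⊗ₜ[K] (D t₂ ⊗ₜ[K] D t₃) = x}
  have hmemS : ∀ t₁ ∈ I, ∀ t₂ ∈ I, ∀ t₃ ∈ I, D t₁ ⊗ₜ[K] (D t₂ ⊗ₜ[K] D t₃) ∈ S :=
    fun t₁ h₁ t₂ h₂ t₃ h₃ => Submodule.subset_span ⟨t₁, h₁, t₂, h₂, t₃, h₃, rfl⟩
  have hwD : ∀ w : FreeLieAlgebra K X, ∀ t ∈ I, ⁅w, D t⁆ = D ⁅w, t⁆ := by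
    intro w t ht
    rw [hD, hI t ht, sub_zero]
  have hS : ∀ w : FreeLieAlgebra K X, ∀ s ∈ S, ⁅w, s⁆ ∈ S ∧ Θ' ⁅w, s⁆ = 0 := by
    intro w s hs
    induction hs using Submodule.span_induction with
    | mem x hx =>
      obtain ⟨t₁, h₁, t₂, h₂, t₃, h₃, rfl⟩ := hx
      constructor
      · rw [LieModule.lie_tmul_right, LieModule.lie_tmul_right, TensorProduct.tmul_add,
          hwD w t₁ h₁, hwD w t₂ h₂, hwD w t₃ h₃]
        exact S.add_mem (hmemS _ (lie_mem_right K _ I w t₁ h₁) _ h₂ _ h₃)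
          (S.add_mem (hmemS _ h₁ _ (lie_mem_right K _ I w t₂ h₂) _ h₃)
            (hmemS _ h₁ _ h₂ _ (lie_mem_right K _ I w t₃ h₃)))
      · rw [LieModule.lie_tmul_right, LieModule.lie_tmul_right, TensorProduct.tmul_add,
          map_add, map_add, hΘ', hΘ', hΘ', hκ w t₁ h₁, hκ w t₂ h₂, hκ w t₃ h₃]
        simp
    | zero => simp
    | add x y _ _ hx hy =>
      rw [lie_add, map_add, hx.2, hy.2]
      exact ⟨S.add_mem hx.1 hy.1, add_zero _⟩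
    | smul a x _ hx =>
      rw [lie_smul, map_smul, hx.2]
      exact ⟨S.smul_mem _ hx.1, smul_zero _⟩
  have hDt : ∀ t ∈ I, ∀ t' ∈ I, D ⁅t, t'⁆ = 0 := by
    intro t ht t' ht'
    rw [hD, hI t ht, hI t' ht', sub_zero]
  have hM2t : ∀ t ∈ I, ∀ t' ∈ I, M2 ⁅t, t'⁆ = D t ⊗ₜ[K] D t' - D t' ⊗ₜ[K] D t := by
    intro t ht t' ht'
    rw [hM2, hI2 t ht, hI2 t' ht', sub_zero, zero_add]
  have hM3t : ∀ t₁ ∈ I, ∀ t₂ ∈ I, ∀ t₃ ∈ I, M3 ⁅t₁, ⁅t₂, t₃⁆⁆ =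
      D t₁ ⊗ₜ[K] (D t₂ ⊗ₜ[K] D t₃) - D t₁ ⊗ₜ[K] (D t₃ ⊗ₜ[K] D t₂)
      - D t₂ ⊗ₜ[K] (D t₃ ⊗ₜ[K] D t₁) + D t₃ ⊗ₜ[K] (D t₂ ⊗ₜ[K] D t₁) := by
    intro t₁ h₁ t₂ h₂ t₃ h₃
    have h23 : ⁅t₂, t₃⁆ ∈ I := lie_mem_right K _ I t₂ t₃ h₃
    rw [hM3, hI3 t₁ h₁, hI3 _ h23, hM2t t₂ h₂ t₃ h₃, hDt t₂ h₂ t₃ h₃]
    simp only [TensorProduct.tmul_sub, TensorProduct.sub_tmul, TensorProduct.tmul_zero,
      TensorProduct.zero_tmul, map_sub, map_zero, TensorProduct.assoc_tmul]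
    abel
  refine ⟨Θ' ∘ₗ M3, ?_, ?_⟩
  · intro t₁ h₁ t₂ h₂ t₃ h₃
    rw [LinearMap.comp_apply, hM3t t₁ h₁ t₂ h₂ t₃ h₃]
    simp only [map_add, map_sub, hΘ']
  · intro τ hτ
    have key : τ ∈ I ∧ D τ = 0 ∧ M2 τ = 0 ∧ M3 τ ∈ S := by
      unfold cube at hτ
      induction hτ using LieSubmodule.lieSpan_induction with
      | mem x hx =>
        obtain ⟨t₁, h₁, t₂, h₂, t₃, h₃, rfl⟩ := hx
        have h23 : ⁅t₂, t₃⁆ ∈ I := lie_mem_right K _ I t₂ t₃ h₃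
        refine ⟨lie_mem_right K _ I _ _ h23, hDt _ h₁ _ h23, ?_, ?_⟩
        · rw [hM2t _ h₁ _ h23, hDt t₂ h₂ t₃ h₃]
          simp
        · rw [hM3t t₁ h₁ t₂ h₂ t₃ h₃]
          exact S.add_mem (S.sub_mem (S.sub_mem (hmemS _ h₁ _ h₂ _ h₃) (hmemS _ h₁ _ h₃ _ h₂))
            (hmemS _ h₂ _ h₃ _ h₁)) (hmemS _ h₃ _ h₂ _ h₁)
      | zero => simp
      | add x y _ _ hx hy =>
        refine ⟨I.add_mem hx.1 hy.1, ?_, ?_, ?_⟩
        · rw [map_add, hx.2.1, hy.2.1, add_zero]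
        · rw [map_add, hx.2.2.1, hy.2.2.1, add_zero]
        · rw [map_add]
          exact S.add_mem hx.2.2.2 hy.2.2.2
      | smul a x _ hx =>
        refine ⟨I.smul_mem a hx.1, ?_, ?_, ?_⟩
        · rw [map_smul, hx.2.1, smul_zero]
        · rw [map_smul, hx.2.2.1, smul_zero]
        · rw [map_smul]
          exact S.smul_mem _ hx.2.2.2
      | lie w x _ hx =>
        obtain ⟨h1, h2, h3, h4⟩ := hx
        refine ⟨lie_mem_right K _ I _ _ h1, ?_, ?_, ?_⟩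
        · rw [hD, h2, hI x h1]
          simp
        · rw [hM2, h2, h3, hI2 x h1]
          simp
        · rw [hM3, h2, h3, hI3 x h1]
          simp only [TensorProduct.tmul_zero, TensorProduct.zero_tmul, map_zero, sub_zero,
            add_zero]
          exact (hS w _ h4).1
    obtain ⟨h1, h2, h3, h4⟩ := key
    intro w
    rw [LinearMap.comp_apply, hM3, h2, h3, hI3 τ h1]
    simp only [TensorProduct.tmul_zero, TensorProduct.zero_tmul, map_zero, sub_zero,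
      add_zero]
    exact (hS w _ h4).2

end cubic

end Pool.MP_f6e9c2_al_work
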