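import Pool.Agent.Lib.MP_f6e9c2_al.Forms
import Pool.Agent.Lib.MP_f6e9c2_al.Triple
import Pool.Agent.Lib.MP_f6e9c2_al.Assembly

/-!
# The representation
-/

set_option autoImplicit false

open MvPolynomial

namespace Pool.MP_f6e9c2_al_work

/-- `A³` with the cross product. -/
def G3 : Type := Fin 3 → A3

noncomputable instance : AddCommGroup G3 := inferInstanceAs (AddCommGroup (Fin 3 → A3))
noncomputable instance : Module (ZMod 3) G3 := inferInstanceAs (Module (ZMod 3) (Fin 3 → A3))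

noncomputable def cr (u v : Fin 3 → A3) : Fin 3 → A3 :=
  ![u 1 * v 2 - u 2 * v 1, u 2 * v 0 - u 0 * v 2, u 0 * v 1 - u 1 * v 0]

theorem cr0 (u v : Fin 3 → A3) : cr u v 0 = u 1 * v 2 - u 2 * v 1 := rfl
theorem cr1 (u v : Fin 3 → A3) : cr u v 1 = u 2 * v 0 - u 0 * v 2 := rfl
theorem cr2 (u v : Fin 3 → A3) : cr u v 2 = u 0 * v 1 - u 1 * v 0 := rfl

theorem ext3 {u v : Fin 3 → A3} (h0 : u 0 = v 0) (h1 : u 1 = v 1) (h2 : u 2 = v 2) : u = v := by
  funext k
  fin_cases k
  · exact h0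
  · exact h1
  · exact h2

noncomputable instance : Bracket G3 G3 := ⟨fun u v => cr u v⟩

theorem G3.lie_def (u v : G3) : ⁅u, v⁆ = cr u v := rfl
theorem G3.add_apply (u v : G3) (k : Fin 3) : (u + v) k = u k + v k := rfl
theorem G3.sub_apply (u v : G3) (k : Fin 3) : (u - v) k = u k - v k := rfl
theorem G3.neg_apply (u : G3) (k : Fin 3) : (-u) k = - u k := rfl
theorem G3.zero_apply (k : Fin 3) : (0 : G3) k = 0 := rfl
theorem G3.smul_apply (c : ZMod 3) (u : G3) (k : Fin 3) : (c • u) k = c • u k := rfl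

noncomputable instance : LieRing G3 where
  add_lie x y z := by
    apply ext3 <;> simp only [G3.lie_def, cr0, cr1, cr2, G3.add_apply] <;> ring
  lie_add x y z := by
    apply ext3 <;> simp only [G3.lie_def, cr0, cr1, cr2, G3.add_apply] <;> ring
  lie_self x := by
    apply ext3 <;> simp only [G3.lie_def, cr0, cr1, cr2, G3.zero_apply] <;> ring
  leibniz_lie x y z := by
    apply ext3 <;> simp only [G3.lie_def, cr0, cr1, cr2, G3.add_apply] <;> ring

noncomputable instance : LieAlgebra (ZMod 3) G3 where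
  lie_smul c x y := by
    apply ext3 <;> simp only [G3.lie_def, cr0, cr1, cr2, G3.smul_apply, mul_smul_comm, smul_sub]

/-- The module: two-forms and vector valued one-forms. -/
def V3 : Type := (Fin 3 → A3) × (Fin 3 → Fin 3 → A3)

noncomputable instance : AddCommGroup V3 :=
  inferInstanceAs (AddCommGroup ((Fin 3 → A3) × (Fin 3 → Fin 3 → A3)))
noncomputable instance : Module (ZMod 3) V3 :=
  inferInstanceAs (Module (ZMod 3) ((Fin 3 → A3) × (Fin 3 → Fin 3 → A3)))

/-- `μ l · ∂ⱼ u` -/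
noncomputable def dd (j : Fin 3) (m u : Fin 3 → A3) : A3 :=
  m 0 * pderiv j (u 0) + m 1 * pderiv j (u 1) + m 2 * pderiv j (u 2)

noncomputable instance : Bracket G3 V3 := ⟨fun u v =>
  (![dd 1 (v.2 2) u - dd 2 (v.2 1) u, dd 2 (v.2 0) u - dd 0 (v.2 2) u,
    dd 0 (v.2 1) u - dd 1 (v.2 0) u], fun l => cr u (v.2 l))⟩

theorem V3.lie_fst0 (u : G3) (v : V3) : ⁅u, v⁆.1 0 = dd 1 (v.2 2) u - dd 2 (v.2 1) u := rfl
theorem V3.lie_fst1 (u : G3) (v : V3) : ⁅u, v⁆.1 1 = dd 2 (v.2 0) u - dd 0 (v.2 2) u := rfl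
theorem V3.lie_fst2 (u : G3) (v : V3) : ⁅u, v⁆.1 2 = dd 0 (v.2 1) u - dd 1 (v.2 0) u := rfl
theorem V3.lie_snd (u : G3) (v : V3) (l : Fin 3) : ⁅u, v⁆.2 l = cr u (v.2 l) := rfl
theorem V3.add_fst (u v : V3) (k : Fin 3) : (u + v).1 k = u.1 k + v.1 k := rfl
theorem V3.add_snd (u v : V3) (k l : Fin 3) : (u + v).2 k l = u.2 k l + v.2 k l := rfl
theorem V3.smul_fst (c : ZMod 3) (v : V3) (k : Fin 3) : (c • v).1 k = c • v.1 k := rfl
theorem V3.smul_snd (c : ZMod 3) (v : V3) (k l : Fin 3) : (c • v).2 k l = c • v.2 k l := rfl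
theorem V3.sub_fst (u v : V3) (k : Fin 3) : (u - v).1 k = u.1 k - v.1 k := rfl
theorem V3.sub_snd (u v : V3) (k l : Fin 3) : (u - v).2 k l = u.2 k l - v.2 k l := rfl

theorem V3.ext {u v : V3} (h0 : u.1 0 = v.1 0) (h1 : u.1 1 = v.1 1) (h2 : u.1 2 = v.1 2)
    (h : ∀ l, u.2 l = v.2 l) : u = v := 
  Prod.ext (ext3 h0 h1 h2) (funext h)

noncomputable instance : LieRingModule G3 V3 where
  add_lie x y v := by
    apply V3.ext
    · simp only [V3.lie_fst0, V3.add_fst, dd, G3.add_apply, map_add]; ring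
    · simp only [V3.lie_fst1, V3.add_fst, dd, G3.add_apply, map_add]; ring
    · simp only [V3.lie_fst2, V3.add_fst, dd, G3.add_apply, map_add]; ring
    · intro l
      apply ext3 <;> simp only [V3.lie_snd, V3.add_snd, cr0, cr1, cr2, G3.add_apply] <;> ring
  lie_add x v w := by
    apply V3.ext
    · simp only [V3.lie_fst0, V3.add_fst, dd, V3.add_snd]; ring
    · simp only [V3.lie_fst1, V3.add_fst, dd, V3.add_snd]; ring
    · simp only [V3.lie_fst2, V3.add_fst, dd, V3.add_snd]; ring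
    · intro l
      apply ext3 <;> simp only [V3.lie_snd, V3.add_snd, cr0, cr1, cr2] <;> ring
  leibniz_lie x y v := by
    apply V3.ext
    · simp only [V3.lie_fst0, V3.add_fst, dd, V3.lie_snd, cr0, cr1, cr2, G3.lie_def, map_sub,
        pderiv_mul]; ring
    · simp only [V3.lie_fst1, V3.add_fst, dd, V3.lie_snd, cr0, cr1, cr2, G3.lie_def, map_sub,
        pderiv_mul]; ring
    · simp only [V3.lie_fst2, V3.add_fst, dd, V3.lie_snd, cr0, cr1, cr2, G3.lie_def, map_sub,
        pderiv_mul]; ring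
    · intro l
      apply ext3 <;> simp only [V3.lie_snd, V3.add_snd, cr0, cr1, cr2, G3.lie_def] <;> ring

theorem pderiv_smul' (c : ZMod 3) (j : Fin 3) (f : A3) :
    pderiv j (c • f) = c • pderiv j f := (pderiv j).map_smul c f

noncomputable instance : LieModule (ZMod 3) G3 V3 where
  smul_lie c x v := by
    apply V3.ext
    · simp only [V3.lie_fst0, V3.smul_fst, dd, G3.smul_apply, pderiv_smul', mul_smul_comm, smul_sub,
        smul_add]
    · simp only [V3.lie_fst1, V3.smul_fst, dd, G3.smul_apply, pderiv_smul', mul_smul_comm, smul_sub,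
        smul_add]
    · simp only [V3.lie_fst2, V3.smul_fst, dd, G3.smul_apply, pderiv_smul', mul_smul_comm, smul_sub,
        smul_add]
    · intro l
      apply ext3 <;> simp only [V3.lie_snd, V3.smul_snd, cr0, cr1, cr2, G3.smul_apply,
        smul_mul_assoc, smul_sub]
  lie_smul c x v := by
    apply V3.ext
    · simp only [V3.lie_fst0, V3.smul_fst, dd, V3.smul_snd, smul_mul_assoc, smul_sub, smul_add]
    · simp only [V3.lie_fst1, V3.smul_fst, dd, V3.smul_snd, smul_mul_assoc, smul_sub, smul_add]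
    · simp only [V3.lie_fst2, V3.smul_fst, dd, V3.smul_snd, smul_mul_assoc, smul_sub, smul_add]
    · intro l
      apply ext3 <;> simp only [V3.lie_snd, V3.smul_snd, cr0, cr1, cr2,
        mul_smul_comm, smul_sub]

/-- Induction principle for free Lie algebras. -/
theorem free_induction {K : Type*} [CommRing K] {X : Type*} (P : FreeLieAlgebra K X → Prop)
    (of : ∀ x, P (FreeLieAlgebra.of K x)) (zero : P 0) (add : ∀ a b, P a → P b → P (a + b))
    (smul : ∀ (c : K) a, P a → P (c • a)) (lie : ∀ a b, P a → P b → P ⁅a, b⁆)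
    (w : FreeLieAlgebra K X) : P w := by
  let S : LieSubalgebra K (FreeLieAlgebra K X) :=
    { carrier := {w | P w}
      add_mem' := fun {a b} ha hb => add a b ha hb
      zero_mem' := zero
      smul_mem' := fun c a ha => smul c a ha
      lie_mem' := fun {a b} ha hb => lie a b ha hb }
  let f : FreeLieAlgebra K X →ₗ⁅K⁆ S := FreeLieAlgebra.lift K fun x => ⟨FreeLieAlgebra.of K x, of x⟩
  have h : S.incl.comp f = LieHom.id := by
    apply FreeLieAlgebra.hom_ext
    intro x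
    simp [f]
  have h2 : ((f w : S) : FreeLieAlgebra K X) = w := congrArg (fun g => g w) h
  rw [← h2]
  exact (f w).2

/-- The two-generated free Lie algebra over the field with three elements. -/
abbrev L2 := FreeLieAlgebra (ZMod 3) (Fin 2)

theorem three_zero : (3 : A3) = 0 := by
  have := CharP.cast_eq_zero A3 3
  exact_mod_cast this

/-- The generic pair. -/
noncomputable def XX : G3 := ![X 0 + 1, X 0 + 1, X 0 - 1]
noncomputable def YY : G3 := ![X 1 + X 2, X 2 - X 1, X 2]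

noncomputable def rho : L2 →ₗ⁅ZMod 3⁆ G3 := FreeLieAlgebra.lift (ZMod 3) ![XX, YY]

noncomputable instance : LieRingModule L2 V3 := LieRingModule.compLieHom V3 rho
noncomputable instance : LieModule (ZMod 3) L2 V3 := LieModule.compLieHom V3 rho

theorem L2_lie (w : L2) (v : V3) : ⁅w, v⁆ = ⁅rho w, v⁆ := rfl

/-- `∑ᵢ dUᵢ ∧ dVᵢ` -/
noncomputable def WW (u v : Fin 3 → A3) : Fin 3 → A3 :=
  ![J2 (u 0) (v 0) 0 + J2 (u 1) (v 1) 0 + J2 (u 2) (v 2) 0,
    J2 (u 0) (v 0) 1 + J2 (u 1) (v 1) 1 + J2 (u 2) (v 2) 1,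
    J2 (u 0) (v 0) 2 + J2 (u 1) (v 1) 2 + J2 (u 2) (v 2) 2]

theorem J20 (θ η : A3) : J2 θ η 0 = pderiv 1 θ * pderiv 2 η - pderiv 2 θ * pderiv 1 η := rfl
theorem J21 (θ η : A3) : J2 θ η 1 = pderiv 2 θ * pderiv 0 η - pderiv 0 θ * pderiv 2 η := rfl
theorem J22 (θ η : A3) : J2 θ η 2 = pderiv 0 θ * pderiv 1 η - pderiv 1 θ * pderiv 0 η := rfl
theorem WW0 (u v : Fin 3 → A3) :
  WW u v 0 = J2 (u 0) (v 0) 0 + J2 (u 1) (v 1) 0 + J2 (u 2) (v 2) 0 := rfl
theorem WW1 (u v : Fin 3 → A3) :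
  WW u v 1 = J2 (u 0) (v 0) 1 + J2 (u 1) (v 1) 1 + J2 (u 2) (v 2) 1 := rfl
theorem WW2 (u v : Fin 3 → A3) :
  WW u v 2 = J2 (u 0) (v 0) 2 + J2 (u 1) (v 1) 2 + J2 (u 2) (v 2) 2 := rfl

/-- The one-form part of the derivation. -/
theorem D_snd (D : L2 →ₗ[ZMod 3] V3)
    (h1 : ∀ j : Fin 2, D (FreeLieAlgebra.of (ZMod 3) j) =
      ((0 : Fin 3 → A3), fun l k => pderiv l ((![XX, YY] : Fin 2 → G3) j k)))
    (h2 : ∀ w w' : L2, D ⁅w, w'⁆ = ⁅w, D w'⁆ - ⁅w', D w⁆) (w : L2) :
    ∀ l k, (D w).2 l k = pderiv l (rho w k) := by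
  induction w using free_induction with
  | of x =>
    intro l k
    rw [h1]
    simp [rho]
  | zero =>
    intro l k
    rw [map_zero, map_zero, G3.zero_apply, map_zero]
    rfl
  | add a b ha hb =>
    intro l k
    rw [map_add, map_add, G3.add_apply, map_add, V3.add_snd, ha, hb]
  | smul c a ha =>
    intro l k
    rw [map_smul, map_smul, G3.smul_apply, pderiv_smul', V3.smul_snd, ha]
  | lie a b ha hb =>
    intro l k
    rw [h2, LieHom.map_lie, V3.sub_snd, L2_lie, L2_lie, G3.lie_def]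
    simp only [V3.lie_snd]
    revert k
    have : ∀ u v : Fin 3 → A3, (∀ k, u k = v k) ↔ u = v := fun u v => funext_iff.symm
    intro k
    fin_cases k
    · simp only [Fin.zero_eta, cr0, ha, hb, map_sub, pderiv_mul]; ring
    · simp only [Fin.mk_one, cr1, ha, hb, map_sub, pderiv_mul]; ring
    · simp only [Fin.reduceFinMk, cr2, ha, hb, map_sub, pderiv_mul]; ring

/-- The two-form part of the derivation on a bracket. -/
theorem D_fst (D : L2 →ₗ[ZMod 3] V3)
    (h1 : ∀ j : Fin 2, D (FreeLieAlgebra.of (ZMod 3) j) =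
      ((0 : Fin 3 → A3), fun l k => pderiv l ((![XX, YY] : Fin 2 → G3) j k)))
    (h2 : ∀ w w' : L2, D ⁅w, w'⁆ = ⁅w, D w'⁆ - ⁅w', D w⁆) (w w' : L2) (k : Fin 3) :
    (D ⁅w, w'⁆).1 k = 2 * WW (rho w) (rho w') k := by
  have h3 := D_snd D h1 h2
  rw [h2, V3.sub_fst, L2_lie, L2_lie]
  fin_cases k
  · simp only [Fin.zero_eta, V3.lie_fst0, dd, h3, WW0, J20]; ring
  · simp only [Fin.mk_one, V3.lie_fst1, dd, h3, WW1, J21]; ring
  · simp only [Fin.reduceFinMk, V3.lie_fst2, dd, h3, WW2, J22]; ring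

theorem cr_triple (u v : Fin 3 → A3) (k : Fin 3) :
    cr u (cr u (cr u v)) k = -(dot3 u u) * cr u v k := by
  fin_cases k <;> simp only [Fin.zero_eta, Fin.mk_one, Fin.reduceFinMk, cr0, cr1, cr2, dot3] <;> ring

theorem G3_gg (u v w : G3) : gg u v w = 0 := by
  unfold gg
  simp only [G3.lie_def]
  have h1 := cr_triple u v
  have h2 := cr_triple u w
  generalize cr u (cr u (cr u v)) = a at *
  generalize cr u (cr u (cr u w)) = b at *
  apply ext3 <;> simp only [G3.sub_apply, G3.zero_apply, cr0 a, cr1 a, cr2 a, cr0 _ b, cr1 _ b,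
    cr2 _ b, h1, h2] <;> ring

/-- The two-form of `gg u v w`. -/
theorem D_gg (D : L2 →ₗ[ZMod 3] V3)
    (h1 : ∀ j : Fin 2, D (FreeLieAlgebra.of (ZMod 3) j) =
      ((0 : Fin 3 → A3), fun l k => pderiv l ((![XX, YY] : Fin 2 → G3) j k)))
    (h2 : ∀ w w' : L2, D ⁅w, w'⁆ = ⁅w, D w'⁆ - ⁅w', D w⁆) (u v w : L2) :
    (D (gg u v w)).1 = J2 (-2 * dot3 (rho u) (rho u))
      (dot3 (cr (rho u) (rho v)) (cr (rho u) (rho w))) := by
  have h4 : ∀ k, (D (gg u v w)).1 k = J2 (-2 * dot3 (rho u) (rho u))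
      (dot3 (cr (rho u) (rho v)) (cr (rho u) (rho w))) k := by
    intro k
    unfold gg
    rw [map_sub, V3.sub_fst, D_fst D h1 h2, D_fst D h1 h2]
    simp only [LieHom.map_lie, G3.lie_def]
    have e1 := cr_triple (rho u) (rho v)
    have e2 := cr_triple (rho u) (rho w)
    generalize cr (rho u) (cr (rho u) (cr (rho u) (rho v))) = a at *
    generalize cr (rho u) (cr (rho u) (cr (rho u) (rho w))) = b at *
    generalize cr (rho u) (rho v) = p at *
    generalize cr (rho u) (rho w) = q at *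
    generalize dot3 (rho u) (rho u) = t at *
    have hC : ∀ l, pderiv l (2 : A3) = 0 := fun l => by
      have : (2 : A3) = C 2 := (map_ofNat C 2).symm
      rw [this, pderiv_C]
    fin_cases k
    · simp only [Fin.zero_eta, WW0, J20, e1, e2, dot3, pderiv_mul, map_neg, map_add, hC]; ring
    · simp only [Fin.mk_one, WW1, J21, e1, e2, dot3, pderiv_mul, map_neg, map_add, hC]; ring
    · simp only [Fin.reduceFinMk, WW2, J22, e1, e2, dot3, pderiv_mul, map_neg, map_add, hC]; ring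
  exact funext h4

end Pool.MP_f6e9c2_al_work
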